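import Pool.Agent.H435Z.P5.Ext

set_option autoImplicit false

namespace Pool.Agent.H435Z.P5

open Classical
open Pool.Agent.H265R2.P5

variable {V : Type}

/-- No induced `K₅ - e`, in elementary terms. -/
def NoKe (G : SimpleGraph V) : Prop :=
  ∀ a b c d e : V, G.Adj a b → G.Adj a c → G.Adj b c → G.Adj a d → G.Adj b d → G.Adj c d →
    G.Adj a e → G.Adj b e → G.Adj c e → d ≠ e → ¬ G.Adj d e → False

/-- No induced complement of `P₃ + 2 P₁`, in elementary terms. -/
def NoCp (G : SimpleGraph V) : Prop :=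
  ∀ a b c d e : V, G.Adj a b → G.Adj c d → G.Adj a c → G.Adj a d → G.Adj a e → G.Adj b c →
    G.Adj b d → G.Adj b e → ¬ G.Adj c e → ¬ G.Adj d e → False

/-- Four reference sequences arranged as in a circular clique. -/
structure Circ (G : SimpleGraph V) (a b c d : ℤ → V) (N : ℤ) : Prop where
  ia : ∀ s t, -N ≤ s → s ≤ N → -N ≤ t → t ≤ N → ¬ G.Adj (a s) (a t)
  ib : ∀ s t, -N ≤ s → s ≤ N → -N ≤ t → t ≤ N → ¬ G.Adj (b s) (b t)
  ic : ∀ s t, -N ≤ s → s ≤ N → -N ≤ t → t ≤ N → ¬ G.Adj (c s) (c t)
  id : ∀ s t, -N ≤ s → s ≤ N → -N ≤ t → t ≤ N → ¬ G.Adj (d s) (d t)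
  ab : ∀ s t, -N ≤ s → s < t → t ≤ N → G.Adj (a s) (b t)
  bc : ∀ s t, -N ≤ s → s < t → t ≤ N → G.Adj (b s) (c t)
  cd : ∀ s t, -N ≤ s → s < t → t ≤ N → G.Adj (c s) (d t)
  da : ∀ s t, -N ≤ s → s < t → t ≤ N → G.Adj (d s) (a t)
  nab : ∀ s t, -N ≤ t → t < s → s ≤ N → ¬ G.Adj (a s) (b t)
  nbc : ∀ s t, -N ≤ t → t < s → s ≤ N → ¬ G.Adj (b s) (c t)
  ncd : ∀ s t, -N ≤ t → t < s → s ≤ N → ¬ G.Adj (c s) (d t)
  nda : ∀ s t, -N ≤ t → t < s → s ≤ N → ¬ G.Adj (d s) (a t)
  ac : ∀ s t, -N ≤ s → s ≤ N → -N ≤ t → t ≤ N → G.Adj (a s) (c t)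
  bd : ∀ s t, -N ≤ s → s ≤ N → -N ≤ t → t ≤ N → G.Adj (b s) (d t)

variable {G : SimpleGraph V} {a b c d : ℤ → V} {N : ℤ}

theorem Circ.rot (h : Circ G a b c d N) : Circ G b c d a N :=
  ⟨h.ib, h.ic, h.id, h.ia, h.bc, h.cd, h.da, h.ab, h.nbc, h.ncd, h.nda, h.nab, h.bd,
    fun s t h1 h2 h3 h4 => (h.ac t s h3 h4 h1 h2).symm⟩

theorem Circ.rev (h : Circ G a b c d N) :
    Circ G (fun s => a (-s)) (fun s => d (-s)) (fun s => c (-s)) (fun s => b (-s)) N :=
  ⟨fun s t _ _ _ _ => h.ia _ _ (by omega) (by omega) (by omega) (by omega),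
   fun s t _ _ _ _ => h.id _ _ (by omega) (by omega) (by omega) (by omega),
   fun s t _ _ _ _ => h.ic _ _ (by omega) (by omega) (by omega) (by omega),
   fun s t _ _ _ _ => h.ib _ _ (by omega) (by omega) (by omega) (by omega),
   fun s t _ _ _ => (h.da (-t) (-s) (by omega) (by omega) (by omega)).symm,
   fun s t _ _ _ => (h.cd (-t) (-s) (by omega) (by omega) (by omega)).symm,
   fun s t _ _ _ => (h.bc (-t) (-s) (by omega) (by omega) (by omega)).symm,
   fun s t _ _ _ => (h.ab (-t) (-s) (by omega) (by omega) (by omega)).symm,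
   fun s t _ _ _ => ns (h.nda (-t) (-s) (by omega) (by omega) (by omega)),
   fun s t _ _ _ => ns (h.ncd (-t) (-s) (by omega) (by omega) (by omega)),
   fun s t _ _ _ => ns (h.nbc (-t) (-s) (by omega) (by omega) (by omega)),
   fun s t _ _ _ => ns (h.nab (-t) (-s) (by omega) (by omega) (by omega)),
   fun s t _ _ _ _ => h.ac _ _ (by omega) (by omega) (by omega) (by omega),
   fun s t _ _ _ _ => (h.bd _ _ (by omega) (by omega) (by omega) (by omega)).symm⟩

theorem Circ.bne (h : Circ G a b c d N) {s t : ℤ} (h1 : -N ≤ s) (h2 : s + 2 ≤ t) (h3 : t ≤ N) :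
    b s ≠ b t := by
  intro he
  have h4 := h.ab (s + 1) t (by omega) (by omega) h3
  rw [← he] at h4
  exact h.nab (s + 1) s h1 (by omega) (by omega) h4

theorem Circ.dne (h : Circ G a b c d N) {s t : ℤ} (h1 : -N ≤ s) (h2 : s + 2 ≤ t) (h3 : t ≤ N) :
    d s ≠ d t := h.rot.rot.bne h1 h2 h3

/-- `z` behaves like a central member of the first sequence towards the references with
`s ≤ |r| ≤ t`. -/
structure Ty (G : SimpleGraph V) (a b c d : ℤ → V) (s t : ℤ) (z : V) : Prop where
  aR : ∀ r, s ≤ r → r ≤ t → ¬ G.Adj z (a r)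
  aL : ∀ r, -t ≤ r → r ≤ -s → ¬ G.Adj z (a r)
  bR : ∀ r, s ≤ r → r ≤ t → G.Adj z (b r)
  bL : ∀ r, -t ≤ r → r ≤ -s → ¬ G.Adj z (b r)
  cR : ∀ r, s ≤ r → r ≤ t → G.Adj z (c r)
  cL : ∀ r, -t ≤ r → r ≤ -s → G.Adj z (c r)
  dR : ∀ r, s ≤ r → r ≤ t → ¬ G.Adj z (d r)
  dL : ∀ r, -t ≤ r → r ≤ -s → G.Adj z (d r)

theorem Ty.mono {s t s' t' : ℤ} {z : V} (h : Ty G a b c d s t z) (hs : s ≤ s') (ht : t' ≤ t) :
    Ty G a b c d s' t' z :=
  ⟨fun r _ _ => h.aR r (by omega) (by omega), fun r _ _ => h.aL r (by omega) (by omega),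
   fun r _ _ => h.bR r (by omega) (by omega), fun r _ _ => h.bL r (by omega) (by omega),
   fun r _ _ => h.cR r (by omega) (by omega), fun r _ _ => h.cL r (by omega) (by omega),
   fun r _ _ => h.dR r (by omega) (by omega), fun r _ _ => h.dL r (by omega) (by omega)⟩

theorem Ty.rev {s t : ℤ} {z : V} (h : Ty G a b c d s t z) :
    Ty G (fun s => a (-s)) (fun s => d (-s)) (fun s => c (-s)) (fun s => b (-s)) s t z :=
  ⟨fun r _ _ => h.aL (-r) (by omega) (by omega), fun r _ _ => h.aR (-r) (by omega) (by omega),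
   fun r _ _ => h.dL (-r) (by omega) (by omega), fun r _ _ => h.dR (-r) (by omega) (by omega),
   fun r _ _ => h.cL (-r) (by omega) (by omega), fun r _ _ => h.cR (-r) (by omega) (by omega),
   fun r _ _ => h.bL (-r) (by omega) (by omega), fun r _ _ => h.bR (-r) (by omega) (by omega)⟩

theorem Ty.unrev {s t : ℤ} {z : V}
    (h : Ty G (fun s => a (-s)) (fun s => d (-s)) (fun s => c (-s)) (fun s => b (-s)) s t z) :
    Ty G a b c d s t z := by
  have := h.rev
  simpa only [neg_neg] using this

theorem Circ.ty (h : Circ G a b c d N) {s t p : ℤ} (h1 : -s < p) (h2 : p < s) (h3 : t ≤ N)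
    (h4 : s ≤ N) : Ty G a b c d s t (a p) :=
  ⟨fun r _ _ => h.ia _ _ (by omega) (by omega) (by omega) (by omega),
   fun r _ _ => h.ia _ _ (by omega) (by omega) (by omega) (by omega),
   fun r _ _ => h.ab _ _ (by omega) (by omega) (by omega),
   fun r _ _ => h.nab _ _ (by omega) (by omega) (by omega),
   fun r _ _ => h.ac _ _ (by omega) (by omega) (by omega) (by omega),
   fun r _ _ => h.ac _ _ (by omega) (by omega) (by omega) (by omega),
   fun r _ _ => ns (h.nda _ _ (by omega) (by omega) (by omega)),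
   fun r _ _ => (h.da _ _ (by omega) (by omega) (by omega)).symm⟩

section

variable (hP : NoP5 G) (hF : NoKe G ∨ NoCp G) (h : Circ G a b c d N) {s t : ℤ}
  (hs : 1 ≤ s) (hst : s + 8 ≤ t) (ht : t ≤ N)

include hF h hs hst ht in
theorem indep {z z' : V} (hz : Ty G a b c d s t z) (hz' : Ty G a b c d s t z') :
    ¬ G.Adj z z' := by
  intro hzz
  rcases hF with hK | hC
  · exact hK (d (-s)) z z' (b s) (b (s + 2)) (hz.dL _ (by omega) (by omega)).symm
      (hz'.dL _ (by omega) (by omega)).symm hzz
      (h.bd _ _ (by omega) (by omega) (by omega) (by omega)).symm (hz.bR _ (by omega) (by omega))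
      (hz'.bR _ (by omega) (by omega))
      (h.bd _ _ (by omega) (by omega) (by omega) (by omega)).symm (hz.bR _ (by omega) (by omega))
      (hz'.bR _ (by omega) (by omega)) (h.bne (by omega) (by omega) (by omega))
      (h.ib _ _ (by omega) (by omega) (by omega) (by omega))
  · exact hC (d (-s - 1)) (b s) z z' (a (-s))
      (h.bd _ _ (by omega) (by omega) (by omega) (by omega)).symm hzz
      (hz.dL _ (by omega) (by omega)).symm (hz'.dL _ (by omega) (by omega)).symm
      (h.da _ _ (by omega) (by omega) (by omega)) (hz.bR _ (by omega) (by omega)).symm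
      (hz'.bR _ (by omega) (by omega)).symm (h.ab _ _ (by omega) (by omega) (by omega)).symm
      (hz.aL _ (by omega) (by omega)) (hz'.aL _ (by omega) (by omega))

include hP hF h hs hst ht in
theorem nest {z z' y y' : V} (hz : Ty G a b c d s t z) (hz' : Ty G a b c d s t z')
    (hy : Ty G b c d a s t y) (hy' : Ty G b c d a s t y') (h1 : G.Adj z y) (h2 : G.Adj z' y')
    (h3 : ¬ G.Adj z y') (h4 : ¬ G.Adj z' y) : False :=
  hP y z (b s) z' y' h1.symm (hz.bR _ (by omega) (by omega)) (hz'.bR _ (by omega) (by omega)).symm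
    h2 (hy.aR _ (by omega) (by omega)) (ns h4) (indep hF h.rot hs hst ht hy hy')
    (indep hF h hs hst ht hz hz') h3 (ns (hy'.aR _ (by omega) (by omega)))

include hP h hs hst ht in
theorem compl {z w : V} (hz : Ty G a b c d s t z) (hw : Ty G c d a b s t w) : G.Adj z w := by
  by_contra hn
  exact hP z (b s) (a (-s)) w (a (s + 1)) (hz.bR _ (by omega) (by omega))
    (h.ab _ _ (by omega) (by omega) (by omega)).symm (hw.cL _ (by omega) (by omega)).symm
    (hw.cR _ (by omega) (by omega)) (hz.aL _ (by omega) (by omega)) hn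
    (hz.aR _ (by omega) (by omega)) (ns (hw.dR _ (by omega) (by omega)))
    (ns (h.nab _ _ (by omega) (by omega) (by omega)))
    (h.ia _ _ (by omega) (by omega) (by omega) (by omega))

include hP hF h hs hst ht in
theorem mixR {z z' q : V} (hz : Ty G a b c d s t z) (hz' : Ty G a b c d s t z')
    (hq : G.Adj q z) (hq' : ¬ G.Adj q z') (hR : ∀ r, s + 3 ≤ r → r ≤ t → ¬ G.Adj q (a r)) :
    Ty G b c d a (s + 3) (t - 4) q := by
  have hzz := indep hF h hs hst ht hz hz'
  have hdR : ∀ r, s ≤ r → r ≤ t - 1 → G.Adj q (d r) := by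
    intro r h1 h2
    by_contra hn
    have e1 : G.Adj q (d (-s)) := by
      by_contra hn1
      exact hP q z (d (-s)) (a t) (d r) hq (hz.dL _ (by omega) (by omega))
        (h.da _ _ (by omega) (by omega) (by omega)) (h.da _ _ (by omega) (by omega) (by omega)).symm
        hn1 (hR _ (by omega) (by omega)) hn (hz.aR _ (by omega) (by omega))
        (hz.dR _ (by omega) (by omega)) (h.id _ _ (by omega) (by omega) (by omega) (by omega))
    have e2 : ∀ r1, s ≤ r1 → r1 < t → G.Adj q (b r1) := by
      intro r1 h3 h4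
      by_contra hn1
      exact hP q z (b r1) (d r) (a t) hq (hz.bR _ (by omega) (by omega))
        (h.bd _ _ (by omega) (by omega) (by omega) (by omega))
        (h.da _ _ (by omega) (by omega) (by omega)) hn1 hn (hR _ (by omega) (by omega))
        (hz.dR _ (by omega) (by omega)) (hz.aR _ (by omega) (by omega))
        (ns (h.nab _ _ (by omega) (by omega) (by omega)))
    rcases hF with hK | hC
    · exact hK q z (d (-s)) (b s) (b (s + 2)) hq e1 (hz.dL _ (by omega) (by omega))
        (e2 _ (by omega) (by omega)) (hz.bR _ (by omega) (by omega))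
        (h.bd _ _ (by omega) (by omega) (by omega) (by omega)).symm
        (e2 _ (by omega) (by omega)) (hz.bR _ (by omega) (by omega))
        (h.bd _ _ (by omega) (by omega) (by omega) (by omega)).symm
        (h.bne (by omega) (by omega) (by omega)) (h.ib _ _ (by omega) (by omega) (by omega) (by omega))
    · exact hC (d (-s)) (b s) q z z' (h.bd _ _ (by omega) (by omega) (by omega) (by omega)).symm hq
        e1.symm (hz.dL _ (by omega) (by omega)).symm (hz'.dL _ (by omega) (by omega)).symm
        (e2 _ (by omega) (by omega)).symm (hz.bR _ (by omega) (by omega)).symm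
        (hz'.bR _ (by omega) (by omega)).symm hq' hzz
  have hdL : ∀ r, -t ≤ r → r ≤ -s → G.Adj q (d r) := by
    intro r h1 h2
    by_contra hn
    exact hP (d (s + 4)) q (d s) (a (s + 3)) (d r) (hdR _ (by omega) (by omega)).symm
      (hdR _ (by omega) (by omega)) (h.da _ _ (by omega) (by omega) (by omega))
      (h.da _ _ (by omega) (by omega) (by omega)).symm
      (h.id _ _ (by omega) (by omega) (by omega) (by omega))
      (h.nda _ _ (by omega) (by omega) (by omega))
      (h.id _ _ (by omega) (by omega) (by omega) (by omega)) (hR _ (by omega) (by omega)) hn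
      (h.id _ _ (by omega) (by omega) (by omega) (by omega))
  have hbR : ∀ r, s ≤ r → r ≤ t → ¬ G.Adj q (b r) := by
    intro r h1 h2 hn
    rcases hF with hK | hC
    · exact hK q z (b r) (d (-s - 2)) (d (-s)) hq hn (hz.bR _ (by omega) (by omega))
        (hdL _ (by omega) (by omega)) (hz.dL _ (by omega) (by omega))
        (h.bd _ _ (by omega) (by omega) (by omega) (by omega))
        (hdL _ (by omega) (by omega)) (hz.dL _ (by omega) (by omega))
        (h.bd _ _ (by omega) (by omega) (by omega) (by omega))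
        (h.dne (by omega) (by omega) (by omega)) (h.id _ _ (by omega) (by omega) (by omega) (by omega))
    · exact hC (d (-s)) (b r) q z z' (h.bd _ _ (by omega) (by omega) (by omega) (by omega)).symm hq
        (hdL _ (by omega) (by omega)).symm (hz.dL _ (by omega) (by omega)).symm
        (hz'.dL _ (by omega) (by omega)).symm hn.symm (hz.bR _ (by omega) (by omega)).symm
        (hz'.bR _ (by omega) (by omega)).symm hq' hzz
  have haL : ∀ r, -t ≤ r → r ≤ -s - 1 → G.Adj q (a r) := by
    intro r h1 h2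
    by_contra hn
    have e1 : G.Adj q (b (-s)) := by
      by_contra hn1
      exact hP q z (b s) (a r) (b (-s)) hq (hz.bR _ (by omega) (by omega))
        (h.ab _ _ (by omega) (by omega) (by omega)).symm (h.ab _ _ (by omega) (by omega) (by omega))
        (hbR _ (by omega) (by omega)) hn hn1 (hz.aL _ (by omega) (by omega))
        (hz.bL _ (by omega) (by omega)) (h.ib _ _ (by omega) (by omega) (by omega) (by omega))
    exact hP z' (b s) (a r) (b (-s)) q (hz'.bR _ (by omega) (by omega))
      (h.ab _ _ (by omega) (by omega) (by omega)).symm (h.ab _ _ (by omega) (by omega) (by omega))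
      e1.symm (hz'.aL _ (by omega) (by omega)) (hz'.bL _ (by omega) (by omega)) (ns hq')
      (h.ib _ _ (by omega) (by omega) (by omega) (by omega)) (ns (hbR _ (by omega) (by omega))) (ns hn)
  have hbL : ∀ r, -t + 4 ≤ r → r ≤ -s → ¬ G.Adj q (b r) := by
    intro r h1 h2 hn
    rcases hF with hK | hC
    · exact hK q (b r) (a (r - 1)) (d (r - 4)) (d (r - 2)) hn (haL _ (by omega) (by omega))
        (h.ab _ _ (by omega) (by omega) (by omega)).symm
        (hdL _ (by omega) (by omega)) (h.bd _ _ (by omega) (by omega) (by omega) (by omega))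
        (h.da _ _ (by omega) (by omega) (by omega)).symm
        (hdL _ (by omega) (by omega)) (h.bd _ _ (by omega) (by omega) (by omega) (by omega))
        (h.da _ _ (by omega) (by omega) (by omega)).symm
        (h.dne (by omega) (by omega) (by omega)) (h.id _ _ (by omega) (by omega) (by omega) (by omega))
    · exact hC q (d (r - 2)) (a (r - 1)) (b r) z (hdL _ (by omega) (by omega))
        (h.ab _ _ (by omega) (by omega) (by omega)) (haL _ (by omega) (by omega)) hn hq
        (h.da _ _ (by omega) (by omega) (by omega))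
        (h.bd _ _ (by omega) (by omega) (by omega) (by omega)).symm
        (hz.dL _ (by omega) (by omega)).symm (ns (hz.aL _ (by omega) (by omega)))
        (ns (hz.bL _ (by omega) (by omega)))
  have hcR : ∀ r, s + 1 ≤ r → r ≤ t → G.Adj q (c r) := by
    intro r h1 h2
    by_contra hn
    exact hP (c r) z' (d (-s)) q (d s) (hz'.cR _ (by omega) (by omega)).symm
      (hz'.dL _ (by omega) (by omega)) (hdL _ (by omega) (by omega)).symm
      (hdR _ (by omega) (by omega)) (h.ncd _ _ (by omega) (by omega) (by omega)) (ns hn)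
      (h.ncd _ _ (by omega) (by omega) (by omega)) (ns hq') (hz'.dR _ (by omega) (by omega))
      (h.id _ _ (by omega) (by omega) (by omega) (by omega))
  have hcL : ∀ r, -t ≤ r → r ≤ -s - 3 → ¬ G.Adj q (c r) := by
    intro r h1 h2 hn
    rcases hF with hK | hC
    · exact hK (c r) z q (d (-s - 2)) (d (-s)) (hz.cL _ (by omega) (by omega)).symm hn.symm hq.symm
        (h.cd _ _ (by omega) (by omega) (by omega)) (hz.dL _ (by omega) (by omega))
        (hdL _ (by omega) (by omega))
        (h.cd _ _ (by omega) (by omega) (by omega)) (hz.dL _ (by omega) (by omega))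
        (hdL _ (by omega) (by omega))
        (h.dne (by omega) (by omega) (by omega)) (h.id _ _ (by omega) (by omega) (by omega) (by omega))
    · exact hC (c r) (d (-s)) q z z' (h.cd _ _ (by omega) (by omega) (by omega)) hq hn.symm
        (hz.cL _ (by omega) (by omega)).symm (hz'.cL _ (by omega) (by omega)).symm
        (hdL _ (by omega) (by omega)).symm (hz.dL _ (by omega) (by omega)).symm
        (hz'.dL _ (by omega) (by omega)).symm hq' hzz
  exact ⟨fun r _ _ => hbR r (by omega) (by omega), fun r _ _ => hbL r (by omega) (by omega),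
    fun r _ _ => hcR r (by omega) (by omega), fun r _ _ => hcL r (by omega) (by omega),
    fun r _ _ => hdR r (by omega) (by omega), fun r _ _ => hdL r (by omega) (by omega),
    fun r _ _ => hR r (by omega) (by omega), fun r _ _ => haL r (by omega) (by omega)⟩

include hP hF h hs hst ht in
theorem mix {z z' q : V} (hz : Ty G a b c d s t z) (hz' : Ty G a b c d s t z')
    (hq : G.Adj q z) (hq' : ¬ G.Adj q z') :
    Ty G b c d a (s + 3) (t - 4) q ∨ Ty G d a b c (s + 3) (t - 4) q := by
  by_cases hR : ∀ r, s + 3 ≤ r → r ≤ t → ¬ G.Adj q (a r)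
  · exact Or.inl (mixR hP hF h hs hst ht hz hz' hq hq' hR)
  by_cases hL : ∀ r, s + 3 ≤ r → r ≤ t → ¬ G.Adj q (a (-r))
  · exact Or.inr (mixR hP hF h.rev hs hst ht hz.rev hz'.rev hq hq' hL).unrev
  exfalso
  push Not at hR hL
  obtain ⟨r1, h1, h2, h3⟩ := hR
  obtain ⟨r2, h4, h5, h6⟩ := hL
  have hzz := indep hF h hs hst ht hz' hz
  have e2 : ∀ r, s ≤ r → r ≤ s + 2 → G.Adj q (b r) := by
    intro r h7 h8
    by_contra hn
    exact hP z' (b r) z q (a r1) (hz'.bR _ (by omega) (by omega)) (hz.bR _ (by omega) (by omega)).symm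
      hq.symm h3 hzz (ns hq') (hz'.aR _ (by omega) (by omega)) (ns hn)
      (ns (h.nab _ _ (by omega) (by omega) (by omega))) (hz.aR _ (by omega) (by omega))
  have e1 : G.Adj q (d (-s)) := by
    by_contra hn
    exact hP z' (d (-s)) z q (a (-r2)) (hz'.dL _ (by omega) (by omega))
      (hz.dL _ (by omega) (by omega)).symm hq.symm h6 hzz (ns hq') (hz'.aL _ (by omega) (by omega))
      (ns hn) (h.nda _ _ (by omega) (by omega) (by omega)) (hz.aL _ (by omega) (by omega))
  rcases hF with hK | hC
  · exact hK q z (d (-s)) (b s) (b (s + 2)) hq e1 (hz.dL _ (by omega) (by omega))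
      (e2 _ (by omega) (by omega)) (hz.bR _ (by omega) (by omega))
      (h.bd _ _ (by omega) (by omega) (by omega) (by omega)).symm
      (e2 _ (by omega) (by omega)) (hz.bR _ (by omega) (by omega))
      (h.bd _ _ (by omega) (by omega) (by omega) (by omega)).symm
      (h.bne (by omega) (by omega) (by omega)) (h.ib _ _ (by omega) (by omega) (by omega) (by omega))
  · exact hC q (b s) (d (-s)) z (a (-r2)) (e2 _ (by omega) (by omega))
      (hz.dL _ (by omega) (by omega)).symm e1 hq h6
      (h.bd _ _ (by omega) (by omega) (by omega) (by omega)) (hz.bR _ (by omega) (by omega)).symm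
      (h.ab _ _ (by omega) (by omega) (by omega)).symm (h.nda _ _ (by omega) (by omega) (by omega))
      (hz.aL _ (by omega) (by omega))

include hP hF h hs ht in
theorem step (hst2 : s + 15 ≤ t) {z z' w q : V} (hz : Ty G a b c d s t z)
    (hz' : Ty G a b c d s t z') (hw : Ty G d a b c s t w) (hw1 : G.Adj w z') (hw2 : ¬ G.Adj w z)
    (hq : G.Adj q z) (hq' : ¬ G.Adj q z') : Ty G b c d a (s + 3) (t - 4) q := by
  rcases mix hP hF h hs (by omega) ht hz hz' hq hq' with h1 | h1
  · exact h1
  · exact (nest hP hF h.rot.rot.rot (s := s + 3) (t := t - 4) (by omega) (by omega) (by omega) h1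
      (hw.mono (by omega) (by omega)) (hz.mono (by omega) (by omega))
      (hz'.mono (by omega) (by omega)) hq hw1 hq' hw2).elim

end

end Pool.Agent.H435Z.P5
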