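import Pool.Agent.H435Z.P5.Defs

set_option autoImplicit false

namespace Pool.Agent.H435Z.P5

open Classical

/-- The circular clique: residues at circular distance at least `p + 1` are adjacent. -/
def cg (n p : ℕ) : SimpleGraph (Fin n) where
  Adj i j := (i.val + p < j.val ∧ j.val + p < i.val + n) ∨ (j.val + p < i.val ∧ i.val + p < j.val + n)
  symm := ⟨fun _ _ h => h.symm⟩
  loopless := ⟨fun i h => by omega⟩

theorem cg_adj {n p : ℕ} (i j : Fin n) : (cg n p).Adj i j ↔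
    (i.val + p < j.val ∧ j.val + p < i.val + n) ∨ (j.val + p < i.val ∧ i.val + p < j.val + n) :=
  Iff.rfl

theorem div_close {q x y : ℕ} (hq : 0 < q) (h : x / q = y / q) : x < y + q := by
  have h1 := Nat.div_add_mod x q
  have h2 := Nat.div_add_mod y q
  have h3 := Nat.mod_lt x hq
  rw [h] at h1
  omega

theorem cg_not_col (k p : ℕ) (hk : 4 ≤ k) : ¬ (cg (k * (p + 1) + 1) p).Colorable k := by
  rintro ⟨φ⟩
  have hn : 4 * (p + 1) ≤ k * (p + 1) := Nat.mul_le_mul_right _ hk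
  obtain ⟨c, -, hc⟩ := Finset.exists_lt_card_fiber_of_mul_lt_card_of_maps_to
    (s := (Finset.univ : Finset (Fin (k * (p + 1) + 1)))) (t := (Finset.univ : Finset (Fin k)))
    (f := φ) (n := p + 1) (fun _ _ => Finset.mem_univ _) (by simp)
  generalize hS : Finset.univ.filter (fun x => φ x = c) = S at hc
  have hind : ∀ x ∈ S, ∀ y ∈ S, ¬ (cg (k * (p + 1) + 1) p).Adj x y := by
    intro x hx y hy hxy
    rw [← hS, Finset.mem_filter] at hx hy
    exact φ.valid hxy (hx.2.trans hy.2.symm)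
  obtain ⟨s, hs⟩ : S.Nonempty := by rw [← Finset.card_pos]; omega
  have hn' : 4 * (p + 1) < k * (p + 1) + 1 := by omega
  generalize k * (p + 1) + 1 = n at *
  let dd : Fin n → ℕ := fun i => if s.val ≤ i.val then i.val - s.val else i.val + n - s.val
  let ψ : Fin n → ℕ := fun i => if dd i ≤ p then dd i else dd i + (p + 1) - n
  have h1 : S.card ≤ (Finset.range (p + 1)).card := by
    apply Finset.card_le_card_of_injOn ψ
    · intro i hi
      have h2 := hind i hi s hs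
      rw [cg_adj] at h2
      have := i.isLt
      have := s.isLt
      simp only [Finset.coe_range, Set.mem_Iio, ψ, dd]
      split_ifs <;> omega
    · intro i hi j hj hij
      have h2 := hind i hi s hs
      have h3 := hind j hj s hs
      have h4 := hind i hi j hj
      rw [cg_adj] at h2 h3 h4
      have := i.isLt
      have := j.isLt
      have := s.isLt
      apply Fin.ext
      simp only [ψ, dd] at hij
      split_ifs at hij <;> omega
  rw [Finset.card_range] at h1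
  omega

theorem cg_col (k p : ℕ) : (cg (k * (p + 1) + 1) p).Colorable (k + 1) := by
  refine ⟨SimpleGraph.Coloring.mk (fun i => ⟨i.val / (p + 1), ?_⟩) ?_⟩
  · rw [Nat.div_lt_iff_lt_mul (by omega)]
    have := i.isLt
    nlinarith
  · intro i j hij he
    have h1 : i.val / (p + 1) = j.val / (p + 1) := congrArg Fin.val he
    have h2 := div_close (by omega) h1
    have h3 := div_close (by omega) h1.symm
    rw [cg_adj] at hij
    omega

theorem cg_del (k p : ℕ) (v : Fin (k * (p + 1) + 1)) :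
    ((cg (k * (p + 1) + 1) p).induce {v}ᶜ).Colorable k := by
  let dd : Fin (k * (p + 1) + 1) → ℕ := fun i =>
    if v.val < i.val then i.val - v.val - 1 else i.val + (k * (p + 1) + 1) - v.val - 1
  refine ⟨SimpleGraph.Coloring.mk (fun i => ⟨dd i.1 / (p + 1), ?_⟩) ?_⟩
  · rw [Nat.div_lt_iff_lt_mul (by omega)]
    have h1 := i.1.isLt
    have h2 := v.isLt
    have h3 : i.1.val ≠ v.val := fun h => i.2 (Fin.ext h)
    simp only [dd]
    split_ifs <;> omega
  · intro i j hij he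
    have h1 : dd i.1 / (p + 1) = dd j.1 / (p + 1) := congrArg Fin.val he
    have h2 := div_close (by omega) h1
    have h3 := div_close (by omega) h1.symm
    have hij' : (cg (k * (p + 1) + 1) p).Adj i.1 j.1 := hij
    rw [cg_adj] at hij'
    have h4 := i.1.isLt
    have h5 := j.1.isLt
    have h6 := v.isLt
    simp only [dd] at h2 h3
    split_ifs at h2 h3 <;> omega

theorem cg_crit (k p : ℕ) (hk : 4 ≤ k) : IsVertexCritical (cg (k * (p + 1) + 1) p) (k + 1) := by
  constructor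
  · have := SimpleGraph.chromaticNumber_eq_iff_colorable_not_colorable.2
      ⟨cg_col k p, cg_not_col k p hk⟩
    rw [this]; push_cast; rfl
  · intro v
    have h1 := SimpleGraph.chromaticNumber_le_iff_colorable.2 (cg_del k p v)
    refine lt_of_le_of_lt h1 ?_
    exact_mod_cast Nat.lt_succ_self k

theorem cg_2P2 {n p : ℕ} (hn : 4 * p < n) (a b c d : Fin n) (h1 : (cg n p).Adj a b)
    (h2 : (cg n p).Adj c d) (h3 : ¬ (cg n p).Adj a c) (h4 : ¬ (cg n p).Adj a d)
    (h5 : ¬ (cg n p).Adj b c) (h6 : ¬ (cg n p).Adj b d) : False := by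
  rw [cg_adj] at h1 h2 h3 h4 h5 h6
  have := a.isLt
  have := b.isLt
  have := c.isLt
  have := d.isLt
  omega

theorem cg_K3 {n p : ℕ} (hn : 4 * p < n) (a b c d : Fin n) (h1 : (cg n p).Adj a b)
    (h2 : (cg n p).Adj a c) (h3 : (cg n p).Adj b c) (h4 : ¬ (cg n p).Adj a d)
    (h5 : ¬ (cg n p).Adj b d) (h6 : ¬ (cg n p).Adj c d) : False := by
  rw [cg_adj] at h1 h2 h3 h4 h5 h6
  have := a.isLt
  have := b.isLt
  have := c.isLt
  have := d.isLt
  omega

theorem cg_K5 {n p : ℕ} (hn : n < 5 * (p + 1)) (a b c d e : Fin n) (h1 : (cg n p).Adj a b)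
    (h2 : (cg n p).Adj a c) (h3 : (cg n p).Adj a d) (h4 : (cg n p).Adj a e)
    (h5 : (cg n p).Adj b c) (h6 : (cg n p).Adj b d) (h7 : (cg n p).Adj b e)
    (h8 : (cg n p).Adj c d) (h9 : (cg n p).Adj c e) (h10 : (cg n p).Adj d e) : False := by
  rw [cg_adj] at h1 h2 h3 h4 h5 h6 h7 h8 h9 h10
  omega

theorem close_ex {n p : ℕ} (a b : Fin n) (h : ¬ (cg n p).Adj a b) :
    ∃ e : ℤ, -(p : ℤ) ≤ e ∧ e ≤ p ∧
      ((b.val : ℤ) = a.val + e ∨ (b.val : ℤ) = a.val + e + n ∨ (b.val : ℤ) = a.val + e - n) := by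
  rw [cg_adj] at h
  have := a.isLt
  have := b.isLt
  by_cases h1 : a.val + p < b.val
  · exact ⟨(b.val : ℤ) - a.val - n, by omega, by omega, by omega⟩
  by_cases h2 : b.val + p < a.val
  · exact ⟨(b.val : ℤ) - a.val + n, by omega, by omega, by omega⟩
  · exact ⟨(b.val : ℤ) - a.val, by omega, by omega, by omega⟩

theorem far_sum {n p : ℕ} (hn : 4 * p < n) (a b c : Fin n) (h : (cg n p).Adj a c) (e f : ℤ)
    (he : -(p : ℤ) ≤ e ∧ e ≤ p ∧
      ((b.val : ℤ) = a.val + e ∨ (b.val : ℤ) = a.val + e + n ∨ (b.val : ℤ) = a.val + e - n))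
    (hf : -(p : ℤ) ≤ f ∧ f ≤ p ∧
      ((c.val : ℤ) = b.val + f ∨ (c.val : ℤ) = b.val + f + n ∨ (c.val : ℤ) = b.val + f - n)) :
    (0 < e ∧ 0 < f) ∨ (e < 0 ∧ f < 0) := by
  rw [cg_adj] at h
  have := a.isLt
  have := b.isLt
  have := c.isLt
  omega

theorem cg_C5 {n p : ℕ} (hn : 5 * p < n) (a b c d e : Fin n) (h1 : (cg n p).Adj a b)
    (h2 : (cg n p).Adj b c) (h3 : (cg n p).Adj c d) (h4 : (cg n p).Adj d e)
    (h5 : (cg n p).Adj e a) (h6 : ¬ (cg n p).Adj a c) (h7 : ¬ (cg n p).Adj c e)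
    (h8 : ¬ (cg n p).Adj e b) (h9 : ¬ (cg n p).Adj b d) (h10 : ¬ (cg n p).Adj d a) : False := by
  obtain ⟨e1, k1⟩ := close_ex _ _ h6
  obtain ⟨e2, k2⟩ := close_ex _ _ h7
  obtain ⟨e3, k3⟩ := close_ex _ _ h8
  obtain ⟨e4, k4⟩ := close_ex _ _ h9
  obtain ⟨e5, k5⟩ := close_ex _ _ h10
  have f1 := far_sum (by omega) _ _ _ h5.symm _ _ k1 k2
  have f2 := far_sum (by omega) _ _ _ h2.symm _ _ k2 k3
  have f3 := far_sum (by omega) _ _ _ h4.symm _ _ k3 k4
  have f4 := far_sum (by omega) _ _ _ h1.symm _ _ k4 k5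
  clear h1 h2 h3 h4 h5 h6 h7 h8 h9 h10
  omega

theorem crit_infinite (k : ℕ) (hk : 4 ≤ k) (H : SimpleGraph (Fin 5))
    (hH : ∀ p : ℕ, ¬ H.IsIndContained (cg (k * (p + 2) + 1) (p + 1))) :
    (crit (k + 1) H).Infinite := by
  refine Set.infinite_of_injective_forall_mem
    (f := fun p : ℕ => Quotient.mk isoSetoid ⟨k * (p + 2) + 1, cg (k * (p + 2) + 1) (p + 1)⟩) ?_ ?_
  · intro p p' h
    obtain ⟨e⟩ := Quotient.exact h
    have h1 := Fintype.card_congr e.toEquiv
    simp only [Fintype.card_fin] at h1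
    have h2 : k * (p + 2) = k * (p' + 2) := by omega
    have := Nat.eq_of_mul_eq_mul_left (by omega) h2
    omega
  · intro p
    refine ⟨_, rfl, cg_crit k (p + 1) hk, ?_, hH p⟩
    rintro ⟨f⟩
    have hn : 4 * (p + 2) ≤ k * (p + 2) := Nat.mul_le_mul_right _ hk
    refine cg_2P2 (n := k * (p + 2) + 1) (p := p + 1) (by omega) (f 0) (f 1) (f 3) (f 4) ?_ ?_ ?_ ?_ ?_ ?_ <;>
      rw [f.map_adj_iff] <;> simp [SimpleGraph.pathGraph_adj]

end Pool.Agent.H435Z.P5
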