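import Mathlib

set_option autoImplicit false

namespace Pool.Agent.H435Z.P5

/-- `G` is `k`-vertex-critical: `χ(G) = k` and `χ(G - v) < k` for every vertex `v`. -/
def IsVertexCritical {V : Type} (G : SimpleGraph V) (k : ℕ) : Prop :=
  G.chromaticNumber = k ∧ ∀ v : V, (G.induce {v}ᶜ).chromaticNumber < k

/-- Finite graphs (on the vertex sets `{0, …, n - 1}`) up to isomorphism. -/
def isoSetoid : Setoid (Σ n : ℕ, SimpleGraph (Fin n)) where
  r p q := Nonempty (p.2 ≃g q.2)
  iseqv :=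
    { refl := fun _ => ⟨SimpleGraph.Iso.refl⟩
      symm := fun ⟨e⟩ => ⟨e.symm⟩
      trans := fun ⟨e⟩ ⟨f⟩ => ⟨e.trans f⟩ }

/-- `crit_k(P₅, H)`: the set of isomorphism classes of finite `k`-vertex-critical graphs with
no induced subgraph isomorphic to `P₅` and none isomorphic to `H`. -/
def crit (k : ℕ) (H : SimpleGraph (Fin 5)) : Set (Quotient isoSetoid) :=
  {c | ∃ p : Σ n : ℕ, SimpleGraph (Fin n), Quotient.mk isoSetoid p = c ∧
    IsVertexCritical p.2 k ∧ ¬ (SimpleGraph.pathGraph 5).IsIndContained p.2 ∧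
    ¬ H.IsIndContained p.2}

/-- `2 P₂`: the two disjoint edges `0 1` and `2 3`. -/
def twoP2 : SimpleGraph (Fin 4) := SimpleGraph.fromEdgeSet {s(0, 1), s(2, 3)}

/-- `K₃ + P₁`: the triangle `0, 1, 2` and the isolated vertex `3`. -/
def trianglePlusP1 : SimpleGraph (Fin 4) := SimpleGraph.fromEdgeSet {s(0, 1), s(0, 2), s(1, 2)}

end Pool.Agent.H435Z.P5
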