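import Pool.Agent.H265R2.P5f

set_option autoImplicit false

namespace Pool.Agent.H435Z.P5

open Finset Classical
open Pool.Agent.H265R2.P5
open Pool.Agent.H265R2.CritP4 (nb mem_nb nb_subset ramsey)

variable {V : Type}

theorem ns {G : SimpleGraph V} {p q : V} (h : ¬ G.Adj p q) : ¬ G.Adj q p :=
  fun h' => h h'.symm

/-- A half graph between two independent sequences. -/
structure Half (G : SimpleGraph V) (u x : ℕ → V) (m : ℕ) : Prop where
  iu : ∀ i j, i < m → j < m → ¬ G.Adj (u i) (u j)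
  ix : ∀ i j, i < m → j < m → ¬ G.Adj (x i) (x j)
  adj : ∀ i j, i < m → j < m → (G.Adj (u i) (x j) ↔ i ≤ j)

theorem half_of_chain (G : SimpleGraph V) (I : Finset V) (hI : ∀ x ∈ I, ∀ y ∈ I, ¬ G.Adj x y)
    (u : ℕ → V) (m : ℕ) (hu : Chain G I 1 u (m + 1)) : ∃ x, Half G u x m := by
  have h : ∀ j, ∃ a, j < m → a ∈ nb G I (u j) ∧ a ∉ nb G I (u (j + 1)) := by
    intro j
    by_cases hj : j < m
    · obtain ⟨a, ha⟩ := hu.exists_gap le_rfl (show j < j + 1 by omega) (by omega)
      exact ⟨a, fun _ => ha⟩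
    · exact ⟨u 0, fun h => absurd h hj⟩
  choose x hx using h
  refine ⟨x, fun i j hi hj => hu.nadj i j (by omega) (by omega), fun i j hi hj =>
    hI _ (mem_nb.1 (hx i hi).1).1 _ (mem_nb.1 (hx j hj).1).1, fun i j hi hj => ⟨fun h => ?_, fun h => ?_⟩⟩
  · by_contra hc
    apply (hx j hj).2
    exact hu.sub' (show j + 1 ≤ i by omega) (by omega) (mem_nb.2 ⟨(mem_nb.1 (hx j hj).1).1, h⟩)
  · exact (mem_nb.1 (hu.sub' h (by omega) (hx j hj).1)).2

theorem Half.comp {G : SimpleGraph V} {u x : ℕ → V} {M m : ℕ} (h : Half G u x M) (σ : ℕ → ℕ)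
    (hσ : ∀ i j, i < m → j < m → (σ i ≤ σ j ↔ i ≤ j)) (hM : ∀ i, i < m → σ i < M) :
    Half G (fun i => u (σ i)) (fun i => x (σ i)) m :=
  ⟨fun i j hi hj => h.iu _ _ (hM i hi) (hM j hj), fun i j hi hj => h.ix _ _ (hM i hi) (hM j hj),
    fun i j hi hj => (h.adj _ _ (hM i hi) (hM j hj)).trans (hσ i j hi hj)⟩

/-- Thresholds of the selection. -/
def fsel (K : ℕ) : ℕ → ℕ
  | 0 => 0
  | n + 1 => (fsel K n + 1) * K + 2

section ext

variable (G : SimpleGraph V) (u x : ℕ → V) (T : ℕ)

/-- Vertices with the same neighbours in `u` as `x j`. -/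
def Z (j : ℕ) (z : V) : Prop := (∀ i, i ≤ T → (G.Adj (u i) z ↔ i ≤ j)) ∧ ¬ G.Adj z (x T)

variable {G u x T}

theorem Z_self (h : Half G u x (T + 1)) {j : ℕ} (hj : j < T) : Z G u x T j (x j) :=
  ⟨fun i hi => h.adj i j (by omega) (by omega), h.ix j T (by omega) (by omega)⟩

theorem Z_ne {j j' : ℕ} (hjj : j < j') (hj : j' < T) {z z' : V} (hz : Z G u x T j z)
    (hz' : Z G u x T j' z') : z ≠ z' := by
  intro h
  have h1 := (hz'.1 j' (by omega)).2 le_rfl
  rw [← h] at h1
  have := (hz.1 j' (by omega)).1 h1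
  omega

theorem Z_anti (hP : NoP5 G) (h : Half G u x (T + 1)) {j j' : ℕ} (hjj : j < j') (hj : j' < T)
    {z z' : V} (hz : Z G u x T j z) (hz' : Z G u x T j' z') : ¬ G.Adj z z' := by
  intro hadj
  refine hP z z' (u j') (x T) (u T) hadj ((hz'.1 j' (by omega)).2 le_rfl).symm
    ((h.adj j' T (by omega) (by omega)).2 (by omega)) ((h.adj T T (by omega) (by omega)).2 le_rfl).symm
    ?_ hz.2 ?_ hz'.2 ?_ (h.iu _ _ (by omega) (by omega))
  · intro h1; have := (hz.1 j' (by omega)).1 h1.symm; omega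
  · intro h1; have := (hz.1 T (by omega)).1 h1.symm; omega
  · intro h1; have := (hz'.1 T (by omega)).1 h1.symm; omega

theorem Z_dich (hP : NoP5 G) (h : Half G u x (T + 1)) {j j'' : ℕ} (hjj : j < j'') (hj : j'' < T)
    {y y'' q : V} (hy : Z G u x T j y) (hy'' : Z G u x T j'' y'') (hqy : G.Adj q y)
    (hq : ¬ Z G u x T j q) (hqy'' : ¬ G.Adj q y'') : G.Adj q (u j'') := by
  by_contra hn
  apply hq
  have hyy := Z_anti hP h hjj hj hy hy''
  have hyu : ¬ G.Adj y (u j'') := by
    intro h1; have := (hy.1 j'' (by omega)).1 h1.symm; omega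
  have hu'' : G.Adj (u j'') y'' := (hy''.1 j'' (by omega)).2 le_rfl
  have hTu : G.Adj (u j'') (x T) := (h.adj j'' T (by omega) (by omega)).2 (by omega)
  have hqT : ¬ G.Adj q (x T) := by
    intro h1
    exact hP y q (x T) (u j'') y'' hqy.symm h1 hTu.symm hu'' hy.2 hyu hyy hn hqy'' (ns hy''.2)
  refine ⟨fun i hi => ⟨fun h1 => ?_, fun h1 => ?_⟩, hqT⟩
  · by_contra h2
    refine hP y q (u i) (x T) (u j'') hqy.symm h1.symm
      ((h.adj i T (by omega) (by omega)).2 hi) hTu.symm ?_ hy.2 hyu hqT hn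
      (h.iu _ _ (by omega) (by omega))
    intro h3; have := (hy.1 i hi).1 h3.symm; omega
  · by_contra h2
    exact hP q y (u i) y'' (u j'') hqy ((hy.1 i hi).2 h1).symm ((hy''.1 i hi).2 (by omega))
      hu''.symm (ns h2) hqy'' hn hyy hyu (h.iu _ _ (by omega) (by omega))

variable [Fintype V]

/-- The unit of `x j`. -/
noncomputable def W (G : SimpleGraph V) (u x : ℕ → V) (T j : ℕ) : Finset V :=
  Finset.univ.filter (fun y => Reach G (Z G u x T j) (x j) y)

theorem memW {j : ℕ} {y : V} : y ∈ W G u x T j ↔ Reach G (Z G u x T j) (x j) y := by simp [W]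

theorem W_Z (h : Half G u x (T + 1)) {j : ℕ} (hj : j < T) {y : V} (hy : y ∈ W G u x T j) :
    Z G u x T j y := Reach.mem (Z_self h hj) (memW.1 hy)

theorem select (hP : NoP5 G) (h : Half G u x (T + 1)) (K : ℕ) (hnot : ¬ G.Colorable K)
    (hcrit : ∀ v, (G.induce {v}ᶜ).Colorable K) (c : ℕ∞) : ∀ (n : ℕ) (J : Finset ℕ),
    (∀ j ∈ J, j < T ∧ (G.induce (W G u x T j : Set V)).chromaticNumber = c) → fsel K n ≤ J.card →
    ∃ (s : ℕ → ℕ) (y q : ℕ → V), (∀ a, a < n → s a ∈ J) ∧ (∀ a b, a < b → b < n → s a < s b) ∧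
      (∀ a, a < n → y a ∈ W G u x T (s a) ∧ q a ∉ W G u x T (s a) ∧ G.Adj (q a) (y a)) ∧
      (∀ a b, a < b → b < n → ∀ z ∈ W G u x T (s b), ¬ G.Adj (q a) z) := by
  intro n
  induction n with
  | zero =>
    intro J _ _
    exact ⟨fun _ => 0, x, x, by simp, by simp, by simp, by simp⟩
  | succ n ih =>
    intro J hJ hcard
    have hcard' : (fsel K n + 1) * K + 2 ≤ J.card := hcard
    have hne : J.Nonempty := by rw [← Finset.card_pos]; omega
    let j0 := J.min' hne
    have hj0 : j0 ∈ J := J.min'_mem hne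
    have hlt : ∀ i ∈ J.erase j0, j0 < i := by
      intro i hi
      rw [Finset.mem_erase] at hi
      exact lt_of_le_of_ne (J.min'_le i hi.2) (Ne.symm hi.1)
    have hJe : ∀ i ∈ J.erase j0, i < T := fun i hi => (hJ i (Finset.mem_of_mem_erase hi)).1
    have hself : ∀ j, x j ∈ W G u x T j := fun j => memW.2 Relation.ReflTransGen.refl
    have hex : ∃ q : V, q ∉ W G u x T j0 ∧ (∃ y ∈ W G u x T j0, G.Adj q y) ∧
        fsel K n + 1 < ((J.erase j0).filter (fun i => ∃ y ∈ W G u x T i, ¬ G.Adj q y)).card := by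
      by_contra hcon
      push Not at hcon
      have := recolor G K hnot hcrit j0 (J.erase j0) (W G u x T) ⟨_, hself j0⟩
        (fun i _ => ⟨_, hself i⟩)
        (fun i hi a ha b hb => ⟨(Z_ne (hlt i hi) (hJe i hi) (W_Z h (hJ j0 hj0).1 hb)
          (W_Z h (hJe i hi) ha)).symm, ns (Z_anti hP h (hlt i hi) (hJe i hi)
          (W_Z h (hJ j0 hj0).1 hb) (W_Z h (hJe i hi) ha))⟩)
        (fun i hi => by rw [(hJ j0 hj0).2, (hJ i (Finset.mem_of_mem_erase hi)).2])
        (fsel K n + 1) (fun q h1 h2 => hcon q h1 h2)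
      rw [Finset.card_erase_of_mem hj0] at this
      omega
    obtain ⟨q0, hq0, ⟨y0, hy0, hqy0⟩, hbig⟩ := hex
    set F := (J.erase j0).filter (fun i => ∃ y ∈ W G u x T i, ¬ G.Adj q0 y) with hF
    let J2 := F.filter (fun i => ∀ z ∈ W G u x T i, ¬ G.Adj q0 z)
    have hmix : (F.filter (fun i => ¬ ∀ z ∈ W G u x T i, ¬ G.Adj q0 z)).card ≤ 1 := by
      rw [Finset.card_le_one]
      intro i hi i' hi'
      by_contra hii
      rw [Finset.mem_filter, hF, Finset.mem_filter] at hi hi'
      obtain ⟨⟨hi1, z2, hz2, hq2⟩, hi3⟩ := hi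
      obtain ⟨⟨hi1', z2', hz2', hq2'⟩, hi3'⟩ := hi'
      push Not at hi3 hi3'
      obtain ⟨z1, hz1, hq1⟩ := hi3
      obtain ⟨z1', hz1', hq1'⟩ := hi3'
      refine not_mixed_twice G hP ((memW.1 hz1).symm'.trans (memW.1 hz2)) hq1 hq2
        ((memW.1 hz1').symm'.trans (memW.1 hz2')) hq1' hq2' ?_
      intro a b ha hb
      have ha' := Reach.mem (W_Z h (hJe i hi1) hz1) ha
      have hb' := Reach.mem (W_Z h (hJe i' hi1') hz1') hb
      rcases lt_or_gt_of_ne hii with h1 | h1
      · exact Z_anti hP h h1 (hJe i' hi1') ha' hb'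
      · exact ns (Z_anti hP h h1 (hJe i hi1) hb' ha')
    have hsplit := Finset.card_filter_add_card_filter_not (s := F)
      (fun i => ∀ z ∈ W G u x T i, ¬ G.Adj q0 z)
    have hJ2 : ∀ i ∈ J2, i ∈ J.erase j0 := fun i hi =>
      (Finset.mem_filter.1 (Finset.mem_filter.1 hi).1).1
    obtain ⟨s, y, q, h1, h2, h3, h4⟩ := ih J2
      (fun i hi => hJ i (Finset.mem_of_mem_erase (hJ2 i hi))) (by
        show fsel K n ≤ (F.filter _).card
        omega)
    refine ⟨fun a => Nat.casesOn a j0 s, fun a => Nat.casesOn a y0 y,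
      fun a => Nat.casesOn a q0 q, ?_, ?_, ?_, ?_⟩
    · intro a ha
      cases a with
      | zero => exact hj0
      | succ a => exact Finset.mem_of_mem_erase (hJ2 _ (h1 a (by omega)))
    · intro a b hab hb
      cases b with
      | zero => omega
      | succ b =>
        cases a with
        | zero => exact hlt _ (hJ2 _ (h1 b (by omega)))
        | succ a => exact h2 a b (by omega) (by omega)
    · intro a ha
      cases a with
      | zero => exact ⟨hy0, hq0, hqy0⟩
      | succ a => exact h3 a (by omega)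
    · intro a b hab hb
      cases b with
      | zero => omega
      | succ b =>
        cases a with
        | zero => exact (Finset.mem_filter.1 (h1 b (by omega))).2
        | succ a => exact h4 a b (by omega) (by omega)

end ext

/-- A long half graph in a critical `P₅`-free graph can be continued by a third sequence. -/
theorem extend (K m : ℕ) : ∃ M : ℕ, ∀ (V : Type) [Fintype V] (G : SimpleGraph V),
    ¬ G.Colorable K → G.Colorable (K + 1) → (∀ v, (G.induce {v}ᶜ).Colorable K) → NoP5 G →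
    ∀ u x : ℕ → V, Half G u x M → ∃ (σ : ℕ → ℕ) (y w : ℕ → V),
      (∀ i j, i < m → j < m → (σ i ≤ σ j ↔ i ≤ j)) ∧ (∀ i, i < m → σ i < M) ∧
      Half G (fun i => u (σ i)) y m ∧ Half G y w m := by
  obtain ⟨n, hn⟩ : ∃ n, n = 2 ^ ((K + 2) + (m + 1)) := ⟨_, rfl⟩
  obtain ⟨T, hT⟩ : ∃ T, T = (K + 2) * fsel K n + 1 := ⟨_, rfl⟩
  refine ⟨T + 1, ?_⟩
  intro V _ G hnot hcol hcrit hP u x h
  have hchi : ∀ i, ∃ c : ℕ, c < K + 2 ∧
      (G.induce (W G u x T i : Set V)).chromaticNumber = c := by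
    intro i
    have h1 : (G.induce (W G u x T i : Set V)).Colorable (K + 1) :=
      hcol.of_hom (SimpleGraph.Embedding.induce _).toHom
    have h2 := (SimpleGraph.chromaticNumber_le_iff_colorable).2 h1
    have h3 : (G.induce (W G u x T i : Set V)).chromaticNumber ≠ ⊤ :=
      ne_top_of_le_ne_top (by exact_mod_cast ENat.natCast_ne_top (K + 1)) h2
    obtain ⟨c, hc⟩ := ENat.ne_top_iff_exists.1 h3
    refine ⟨c, ?_, hc.symm⟩
    rw [← hc] at h2
    have : c ≤ K + 1 := by exact_mod_cast h2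
    omega
  choose f hf1 hf2 using hchi
  obtain ⟨c, hc, hc2⟩ := Finset.exists_lt_card_fiber_of_mul_lt_card_of_maps_to
    (s := Finset.range T) (t := Finset.range (K + 2)) (f := f) (n := fsel K n)
    (fun i _ => Finset.mem_range.2 (hf1 i))
    (by rw [Finset.card_range, Finset.card_range]; omega)
  obtain ⟨s, y, q, h1, h2, h3, h4⟩ := select hP h K hnot hcrit (c : ℕ∞) n
    ((Finset.range T).filter (fun x => f x = c))
    (fun j hj => ⟨Finset.mem_range.1 (Finset.mem_filter.1 hj).1, by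
      rw [hf2 j, (Finset.mem_filter.1 hj).2]⟩) hc2.le
  have hsT : ∀ a, a < n → s a < T := fun a ha =>
    Finset.mem_range.1 (Finset.mem_filter.1 (h1 a ha)).1
  have hZ : ∀ a, a < n → Z G u x T (s a) (y a) := fun a ha => W_Z h (hsT a ha) (h3 a ha).1
  have hnZ : ∀ a, a < n → ¬ Z G u x T (s a) (q a) := by
    intro a ha hz
    exact (h3 a ha).2.1 (memW.2 ((memW.1 (h3 a ha).1).tail ⟨hZ a ha, hz, (h3 a ha).2.2.symm⟩))
  rcases ramsey (G.comap q) _ (K + 2) (m + 1) le_rfl (Finset.range n)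
    (by simp [hn]) with ⟨S, hS, hSc, hadj⟩ | ⟨S, hS, hSc, hadj⟩
  · exfalso
    have hinj : Set.InjOn q (S : Set ℕ) := by
      intro a ha b hb hab
      by_contra hne
      have h1 : G.Adj (q a) (q b) := hadj a ha b hb hne
      exact h1.ne hab
    have := clique_bound G K hcol (S.image q) (by
      intro a ha b hb hab
      obtain ⟨i, hi, rfl⟩ := Finset.mem_image.1 ha
      obtain ⟨j, hj, rfl⟩ := Finset.mem_image.1 hb
      exact hadj i hi j hj (fun h => hab (by rw [h])))
    rw [Finset.card_image_of_injOn hinj] at this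
    omega
  · let e := S.orderEmbOfFin hSc
    let τ : ℕ → ℕ := fun i => if hi : i < m + 1 then e ⟨i, hi⟩ else 0
    have hτ : ∀ i (hi : i < m + 1), τ i = e ⟨i, hi⟩ := fun i hi => dif_pos hi
    have hτS : ∀ i, i < m + 1 → τ i ∈ S := fun i hi => by
      rw [hτ i hi]; exact S.orderEmbOfFin_mem hSc _
    have hτn : ∀ i, i < m + 1 → τ i < n := fun i hi => Finset.mem_range.1 (hS (hτS i hi))
    have hτm : ∀ i j, i < j → j < m + 1 → τ i < τ j := fun i j hij hj => by
      rw [hτ i (by omega), hτ j hj]; exact e.strictMono (by exact hij)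
    have hst : ∀ i j, i < j → j < m + 1 → s (τ i) < s (τ j) := fun i j hij hj =>
      h2 _ _ (hτm i j hij hj) (hτn j hj)
    have hle : ∀ i j, i < m → j < m → (s (τ i) ≤ s (τ j) ↔ i ≤ j) := by
      intro i j hi hj
      constructor
      · intro h5
        by_contra h6
        have := hst j i (by omega) (by omega)
        omega
      · intro h5
        rcases Nat.eq_or_lt_of_le h5 with h6 | h6
        · rw [h6]
        · exact (hst i j h6 (by omega)).le
    have hqq : ∀ i j, i < m + 1 → j < m + 1 → ¬ G.Adj (q (τ i)) (q (τ j)) := fun i j hi hj =>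
      hadj _ (hτS i hi) _ (hτS j hj)
    have hyy : ∀ i j, i < m + 1 → j < m + 1 → ¬ G.Adj (y (τ i)) (y (τ j)) := by
      intro i j hi hj
      rcases lt_trichotomy i j with h5 | h5 | h5
      · exact Z_anti hP h (hst i j h5 hj) (hsT _ (hτn j hj)) (hZ _ (hτn i hi)) (hZ _ (hτn j hj))
      · rw [h5]; exact G.irrefl
      · exact ns (Z_anti hP h (hst j i h5 hi) (hsT _ (hτn i hi)) (hZ _ (hτn j hj)) (hZ _ (hτn i hi)))
    have hqy : ∀ i j, i < j → j < m + 1 → ¬ G.Adj (q (τ i)) (y (τ j)) := fun i j hij hj =>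
      h4 _ _ (hτm i j hij hj) (hτn j hj) _ (h3 _ (hτn j hj)).1
    have hqu : ∀ i, i < m → G.Adj (q (τ i)) (u (s (τ m))) := fun i hi =>
      Z_dich hP h (hst i m hi (by omega)) (hsT _ (hτn m (by omega))) (hZ _ (hτn i (by omega)))
        (hZ _ (hτn m (by omega))) (h3 _ (hτn i (by omega))).2.2 (hnZ _ (hτn i (by omega)))
        (hqy i m hi (by omega))
    have hyu : ∀ i, i < m → ¬ G.Adj (y (τ i)) (u (s (τ m))) := by
      intro i hi h5
      have h6 := ((hZ _ (hτn i (by omega))).1 _ (hsT _ (hτn m (by omega))).le).1 h5.symm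
      have := hst i m hi (by omega)
      omega
    refine ⟨fun i => s (τ i), fun i => y (τ i), fun i => q (τ i), hle,
      fun i hi => Nat.lt_succ_of_lt (hsT _ (hτn i (by omega))), ⟨?_, ?_, ?_⟩, ⟨?_, ?_, ?_⟩⟩
    · intro i j hi hj
      exact h.iu _ _ (Nat.lt_succ_of_lt (hsT _ (hτn i (by omega))))
        (Nat.lt_succ_of_lt (hsT _ (hτn j (by omega))))
    · intro i j hi hj
      exact hyy i j (by omega) (by omega)
    · intro i j hi hj
      exact ((hZ _ (hτn j (by omega))).1 _ (hsT _ (hτn i (by omega))).le).trans (hle i j hi hj)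
    · intro i j hi hj
      exact hyy i j (by omega) (by omega)
    · intro i j hi hj
      exact hqq i j (by omega) (by omega)
    · intro i j hi hj
      constructor
      · intro h5
        by_contra h6
        exact hqy j i (by omega) (by omega) h5.symm
      · intro h5
        rcases Nat.eq_or_lt_of_le h5 with h6 | h6
        · rw [h6]; exact (h3 _ (hτn j (by omega))).2.2.symm
        · by_contra h7
          exact hP (y (τ i)) (q (τ i)) (u (s (τ m))) (q (τ j)) (y (τ j))
            (h3 _ (hτn i (by omega))).2.2.symm (hqu i hi) (hqu j hj).symm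
            (h3 _ (hτn j (by omega))).2.2 (hyu i hi) h7 (hyy i j (by omega) (by omega))
            (hqq i j (by omega) (by omega)) (hqy i j h6 (by omega)) (ns (hyu j hj))

end Pool.Agent.H435Z.P5
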