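import Pool.Agent.H435Z.P5.Circ

set_option autoImplicit false

namespace Pool.Agent.H435Z.P5

open Classical
open Pool.Agent.H265R2.P5

variable {V : Type}

theorem total_col {G : SimpleGraph V} {K : ℕ} {v w : V} (hw : w ≠ v)
    (h : (G.induce {v}ᶜ).Colorable K) :
    ∃ ψ : V → Fin K, ∀ x y, x ≠ v → y ≠ v → G.Adj x y → ψ x ≠ ψ y := by
  obtain ⟨φ⟩ := h
  let c0 : Fin K := φ ⟨w, hw⟩
  refine ⟨fun x => if h : x ≠ v then φ ⟨x, h⟩ else c0, ?_⟩
  intro x y hx hy hxy
  simp only [dif_pos hx, dif_pos hy]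
  apply φ.valid
  exact hxy

theorem extend_col {G : SimpleGraph V} {K : ℕ} {v : V} (ψ : V → Fin K)
    (hψ : ∀ x y, x ≠ v → y ≠ v → G.Adj x y → ψ x ≠ ψ y) (γ : Fin K)
    (hγ : ∀ q, G.Adj q v → ψ q ≠ γ) : G.Colorable K := by
  refine ⟨SimpleGraph.Coloring.mk (fun x => if x = v then γ else ψ x) ?_⟩
  intro x y hxy
  by_cases hx : x = v <;> by_cases hy : y = v
  · exact absurd (hx.trans hy.symm) hxy.ne
  · simp only [hx, hy, if_true, if_false]
    exact (hγ y (hx ▸ hxy.symm)).symm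
  · simp only [hx, hy, if_true, if_false]
    exact hγ x (hy ▸ hxy)
  · simp only [hx, hy, if_false]
    exact hψ x y hx hy hxy

theorem no_comp {G : SimpleGraph V} {K : ℕ} (hnot : ¬ G.Colorable K)
    (hcrit : ∀ v, (G.induce {v}ᶜ).Colorable K) {e v : V} (hne : v ≠ e)
    (hN : ∀ q, G.Adj q e → G.Adj q v) : False := by
  obtain ⟨ψ, hψ⟩ := total_col hne (hcrit e)
  exact hnot (extend_col ψ hψ (ψ v) (fun q hq => hψ q v hq.ne hne (hN q hq)))

theorem circ_false {G : SimpleGraph V} {a b c d : ℤ → V} {K : ℕ} (hnot : ¬ G.Colorable K)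
    (hcrit : ∀ v, (G.induce {v}ᶜ).Colorable K) (hP : NoP5 G) (hF : NoKe G ∨ NoCp G)
    (h : Circ G a b c d 60) : False := by
  have tv : Ty G a b c d 6 60 (a 0) := h.ty (by omega) (by omega) (by omega) (by omega)
  have ta : Ty G a b c d 6 60 (a 2) := h.ty (by omega) (by omega) (by omega) (by omega)
  have tb : Ty G b c d a 6 60 (b 3) := h.rot.ty (by omega) (by omega) (by omega) (by omega)
  have tc : Ty G c d a b 6 60 (c 4) := h.rot.rot.ty (by omega) (by omega) (by omega) (by omega)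
  have td : Ty G d a b c 6 60 (d 5) := h.rot.rot.rot.ty (by omega) (by omega) (by omega) (by omega)
  have td1 : Ty G d a b c 6 60 (d 1) := h.rot.rot.rot.ty (by omega) (by omega) (by omega) (by omega)
  have n1 : a 2 ≠ a 0 := (h.rot.rot.rot.bne (by omega) (by omega) (by omega)).symm
  have n2 : b 3 ≠ a 0 := (h.ab 0 3 (by omega) (by omega) (by omega)).ne.symm
  have n3 : c 4 ≠ a 0 := (h.ac 0 4 (by omega) (by omega) (by omega) (by omega)).ne.symm
  have n4 : d 5 ≠ a 0 := by
    intro he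
    have h1 := h.da 5 6 (by omega) (by omega) (by omega)
    rw [he] at h1
    exact h.ia 0 6 (by omega) (by omega) (by omega) (by omega) h1
  have e23 : G.Adj (a 2) (b 3) := h.ab _ _ (by omega) (by omega) (by omega)
  have e34 : G.Adj (b 3) (c 4) := h.bc _ _ (by omega) (by omega) (by omega)
  have e45 : G.Adj (c 4) (d 5) := h.cd _ _ (by omega) (by omega) (by omega)
  have e24 : G.Adj (a 2) (c 4) := h.ac _ _ (by omega) (by omega) (by omega) (by omega)
  have e35 : G.Adj (b 3) (d 5) := h.bd _ _ (by omega) (by omega) (by omega) (by omega)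
  obtain ⟨ψ, hψ⟩ := total_col n1 (hcrit (a 0))
  have hna : ∀ x y, x ≠ a 0 → y ≠ a 0 → ψ x = ψ y → ¬ G.Adj x y :=
    fun x y hx hy he hxy => hψ x y hx hy hxy he
  let B : V → Prop := fun y => G.Adj y (a 0) ∧ ψ y = ψ (a 2)
  let C : V → Prop := fun y => (∃ x, B x ∧ G.Adj y x) ∧ y ≠ a 0 ∧ ψ y = ψ (b 3)
  let D : V → Prop := fun y => (∃ x, C x ∧ G.Adj y x) ∧ y ≠ a 0 ∧ ψ y = ψ (c 4)
  have nB : ∀ y, B y → ¬ G.Adj y (a 2) := fun y hy => hna _ _ hy.1.ne n1 hy.2
  have nC : ∀ y, C y → ¬ G.Adj y (b 3) := fun y hy => hna _ _ hy.2.1 n2 hy.2.2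
  have nD : ∀ y, D y → ¬ G.Adj y (c 4) := fun y hy => hna _ _ hy.2.1 n3 hy.2.2
  have tB : ∀ y, B y → Ty G b c d a 9 56 y := fun y hy =>
    step hP hF h (s := 6) (t := 60) (by omega) (by omega) (by omega) tv ta td1
      (h.da _ _ (by omega) (by omega) (by omega)) (h.nda _ _ (by omega) (by omega) (by omega))
      hy.1 (nB y hy)
  have tC : ∀ y, C y → Ty G c d a b 12 52 y := by
    intro y hy
    obtain ⟨x, hx, hyx⟩ := hy.1
    exact step hP hF h.rot (s := 9) (t := 56) (by omega) (by omega) (by omega) (tB x hx)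
      (tb.mono (by omega) (by omega)) (ta.mono (by omega) (by omega)) e23 (ns (nB x hx)) hyx (nC y hy)
  have tD : ∀ y, D y → Ty G d a b c 15 48 y := by
    intro y hy
    obtain ⟨x, hx, hyx⟩ := hy.1
    exact step hP hF h.rot.rot (s := 12) (t := 52) (by omega) (by omega) (by omega) (tC x hx)
      (tc.mono (by omega) (by omega)) (tb.mono (by omega) (by omega)) e34 (ns (nC x hx)) hyx (nD y hy)
  by_cases hE : ∃ e, (∃ x, D x ∧ G.Adj e x) ∧ e ≠ a 0 ∧ ψ e = ψ (d 5)
  · obtain ⟨e, ⟨xd, hxd, hed⟩, hev, hec⟩ := hE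
    obtain ⟨xc, hxc, hdc⟩ := hxd.1
    obtain ⟨xb, hxb, hcb⟩ := hxc.1
    have te : Ty G a b c d 18 44 e :=
      step hP hF h.rot.rot.rot (s := 15) (t := 48) (by omega) (by omega) (by omega) (tD xd hxd)
        (td.mono (by omega) (by omega)) (tc.mono (by omega) (by omega)) e45 (ns (nD xd hxd)) hed
        (hna _ _ hev n4 hec)
    by_cases hq : ∀ q, G.Adj q (a 0) → ψ q ≠ ψ (d 5)
    · exact hnot (extend_col ψ hψ _ hq)
    push Not at hq
    obtain ⟨q, hqv, hqc⟩ := hq
    have hqe : ¬ G.Adj q e := hna _ _ hqv.ne hev (hqc.trans hec.symm)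
    have tv' : Ty G a b c d 21 40 (a 0) := tv.mono (by omega) (by omega)
    have te' : Ty G a b c d 21 40 e := te.mono (by omega) (by omega)
    have tb' : Ty G b c d a 21 40 xb := (tB xb hxb).mono (by omega) (by omega)
    have tc' : Ty G c d a b 21 40 xc := (tC xc hxc).mono (by omega) (by omega)
    have td' : Ty G d a b c 21 40 xd := (tD xd hxd).mono (by omega) (by omega)
    have tq : Ty G d a b c 21 40 q := by
      rcases mix hP hF h (s := 18) (t := 44) (by omega) (by omega) (by omega)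
        (tv.mono (by omega) (by omega)) te hqv hqe with h1 | h1
      · exact absurd (compl hP h.rot (s := 21) (t := 40) (by omega) (by omega) (by omega) h1
          (td.mono (by omega) (by omega))) (hna _ _ hqv.ne n4 hqc)
      · exact h1
    have hdv : G.Adj xd (a 0) := by
      by_contra hn
      exact nest hP hF h.rot.rot.rot (s := 21) (t := 40) (by omega) (by omega) (by omega) tq td' tv' te'
        hqv hed.symm hqe hn
    have hvc : G.Adj (a 0) xc := compl hP h (s := 21) (t := 40) (by omega) (by omega) (by omega) tv' tc'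
    have hec' : G.Adj e xc := compl hP h (s := 21) (t := 40) (by omega) (by omega) (by omega) te' tc'
    have hbd : G.Adj xb xd :=
      compl hP h.rot (s := 21) (t := 40) (by omega) (by omega) (by omega) tb' td'
    have hve : ¬ G.Adj (a 0) e := indep hF h (s := 21) (t := 40) (by omega) (by omega) (by omega) tv' te'
    rcases hF with hK | hC
    · have heb : G.Adj e xb := by
        by_contra hn
        refine no_comp hnot hcrit hev.symm (fun q' hq' => ?_)
        by_contra hn'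
        rcases mix hP (Or.inl hK) h (s := 18) (t := 44) (by omega) (by omega) (by omega) te
          (tv.mono (by omega) (by omega)) hq' hn' with h1 | h1
        · exact nest hP (Or.inl hK) h (s := 21) (t := 40) (by omega) (by omega) (by omega) te' tv' h1 tb'
            hq'.symm hxb.1.symm hn (ns hn')
        · exact nest hP (Or.inl hK) h.rot.rot.rot (s := 21) (t := 40) (by omega) (by omega) (by omega)
            h1 tq te' tv' hq' hqv hn' hqe
      exact hK xb xc xd (a 0) e hcb.symm hbd hdc.symm hxb.1 hvc.symm hdv heb.symm hec'.symm hed.symm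
        hev.symm hve
    · have hb4 : G.Adj xb (c 4) := by
        by_contra hn
        exact nest hP (Or.inr hC) h.rot (s := 21) (t := 40) (by omega) (by omega) (by omega) tb'
          (tb.mono (by omega) (by omega)) tc' (tc.mono (by omega) (by omega)) hcb.symm e34 hn
          (ns (nC xc hxc))
      exact hC (a 0) xb xc xd (c 4) hxb.1.symm hdc.symm hvc hdv.symm
        (h.ac _ _ (by omega) (by omega) (by omega) (by omega)) hcb.symm hbd hb4
        (indep (Or.inr hC) h.rot.rot (s := 21) (t := 40) (by omega) (by omega) (by omega) tc'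
          (tc.mono (by omega) (by omega))) (nD xd hxd)
  · have f1 : ψ (a 2) ≠ ψ (b 3) := hψ _ _ n1 n2 e23
    have f2 : ψ (b 3) ≠ ψ (c 4) := hψ _ _ n2 n3 e34
    have f3 : ψ (c 4) ≠ ψ (d 5) := hψ _ _ n3 n4 e45
    have f4 : ψ (a 2) ≠ ψ (c 4) := hψ _ _ n1 n3 e24
    have f5 : ψ (b 3) ≠ ψ (d 5) := hψ _ _ n2 n4 e35
    let χ : V → Fin K := fun y =>
      if B y then ψ (b 3) else if C y then ψ (c 4) else if D y then ψ (d 5) else ψ y
    have cases4 : ∀ y, (B y ∧ χ y = ψ (b 3)) ∨ (C y ∧ χ y = ψ (c 4)) ∨ (D y ∧ χ y = ψ (d 5)) ∨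
        (¬ B y ∧ ¬ C y ∧ ¬ D y ∧ χ y = ψ y) := by
      intro y
      by_cases h1 : B y
      · exact Or.inl ⟨h1, if_pos h1⟩
      by_cases h2 : C y
      · exact Or.inr (Or.inl ⟨h2, by simp only [χ, if_neg h1, if_pos h2]⟩)
      by_cases h3 : D y
      · exact Or.inr (Or.inr (Or.inl ⟨h3, by simp only [χ, if_neg h1, if_neg h2, if_pos h3]⟩))
      · exact Or.inr (Or.inr (Or.inr ⟨h1, h2, h3, by simp only [χ, if_neg h1, if_neg h2, if_neg h3]⟩))
    have key : ∀ x y, x ≠ a 0 → y ≠ a 0 → G.Adj x y → ¬ B y → ¬ C y → ¬ D y → χ x ≠ ψ y := by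
      intro x y hx hy hxy h1 h2 h3 he
      rcases cases4 x with ⟨k, e⟩ | ⟨k, e⟩ | ⟨k, e⟩ | ⟨_, _, _, e⟩
      · exact h2 ⟨⟨x, k, hxy.symm⟩, hy, by rw [← he, e]⟩
      · exact h3 ⟨⟨x, k, hxy.symm⟩, hy, by rw [← he, e]⟩
      · exact hE ⟨y, ⟨x, k, hxy.symm⟩, hy, by rw [← he, e]⟩
      · exact hψ x y hx hy hxy (by rw [← he, e])
    refine hnot (extend_col (v := a 0) χ ?_ (ψ (a 2)) ?_)
    · intro x y hx hy hxy he
      rcases cases4 y with ⟨k, e⟩ | ⟨k, e⟩ | ⟨k, e⟩ | ⟨k1, k2, k3, e⟩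
      · rcases cases4 x with ⟨k', e'⟩ | ⟨k', e'⟩ | ⟨k', e'⟩ | ⟨k1, k2, k3, e'⟩
        · exact hψ x y hx hy hxy (k'.2.trans k.2.symm)
        · exact f2 (by rw [← e, ← e', he])
        · exact f5 (by rw [← e, ← e', he])
        · exact key y x hy hx hxy.symm k1 k2 k3 (by rw [← he, e'])
      · rcases cases4 x with ⟨k', e'⟩ | ⟨k', e'⟩ | ⟨k', e'⟩ | ⟨k1, k2, k3, e'⟩
        · exact f2 (by rw [← e, ← e', he])
        · exact hψ x y hx hy hxy (k'.2.2.trans k.2.2.symm)
        · exact f3 (by rw [← e, ← e', he])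
        · exact key y x hy hx hxy.symm k1 k2 k3 (by rw [← he, e'])
      · rcases cases4 x with ⟨k', e'⟩ | ⟨k', e'⟩ | ⟨k', e'⟩ | ⟨k1, k2, k3, e'⟩
        · exact f5 (by rw [← e, ← e', he])
        · exact f3 (by rw [← e, ← e', he])
        · exact hψ x y hx hy hxy (k'.2.2.trans k.2.2.symm)
        · exact key y x hy hx hxy.symm k1 k2 k3 (by rw [← he, e'])
      · exact key x y hx hy hxy k1 k2 k3 (by rw [he, e])
    · intro q hq he
      rcases cases4 q with ⟨k, e⟩ | ⟨k, e⟩ | ⟨k, e⟩ | ⟨k1, k2, k3, e⟩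
      · exact f1 (by rw [← e, he])
      · exact f4 (by rw [← e, he])
      · obtain ⟨xc, hxc, -⟩ := k.1
        obtain ⟨xb, hxb, -⟩ := hxc.1
        have h1 : G.Adj xb (d 5) := compl hP h.rot (s := 9) (t := 56) (by omega) (by omega) (by omega)
          (tB xb hxb) (td.mono (by omega) (by omega))
        exact hψ xb (d 5) hxb.1.ne n4 h1 (by rw [hxb.2, ← he, e])
      · exact k1 ⟨hq, by rw [← e, he]⟩

section build

variable {G : SimpleGraph V} {c0 c1 c2 c3 : ℕ → V} {m : ℕ}

theorem Half.ne2 (h : Half G c0 c1 m) {i j : ℕ} (hij : i < j) (hj : j < m) : c1 i ≠ c1 j := by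
  intro he
  have h1 := (h.adj j j hj hj).2 le_rfl
  rw [← he] at h1
  have := (h.adj j i hj (by omega)).1 h1
  omega

theorem Half.yes (h : Half G c0 c1 m) {i j : ℕ} (hij : i ≤ j) (hj : j < m) : G.Adj (c0 i) (c1 j) :=
  (h.adj i j (by omega) hj).2 hij

theorem Half.no (h : Half G c0 c1 m) {i j : ℕ} (hij : j < i) (hi : i < m) :
    ¬ G.Adj (c0 i) (c1 j) := fun h1 => by
  have := (h.adj i j hi (by omega)).1 h1
  omega

theorem forced (hP : NoP5 G) (h01 : Half G c0 c1 m) (h12 : Half G c1 c2 m) {i j : ℕ}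
    (hi : 1 ≤ i) (hij : i ≤ j) (hj : j + 1 < m) : G.Adj (c0 i) (c2 j) := by
  by_contra hn
  exact hP (c1 (j + 1)) (c0 i) (c1 i) (c2 j) (c1 0) (h01.yes (by omega) hj).symm
    (h01.yes le_rfl (by omega)) (h12.yes hij (by omega)) (h12.yes (by omega) (by omega)).symm
    (h01.ix _ _ (by omega) (by omega)) (h12.no (by omega) hj) (h01.ix _ _ (by omega) (by omega))
    hn (h01.no (by omega) (by omega)) (h01.ix _ _ (by omega) (by omega))

theorem no03 (hP : NoP5 G) (hF : NoKe G ∨ NoCp G) (h01 : Half G c0 c1 m) (h12 : Half G c1 c2 m)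
    (h23 : Half G c2 c3 m) {i j : ℕ} (hi : 1 ≤ i) (hij : i + 4 ≤ j) (hj : j + 1 < m) :
    ¬ G.Adj (c0 i) (c3 j) := by
  intro hn
  rcases hF with hK | hC
  · exact hK (c0 i) (c2 (i + 3)) (c3 j) (c1 (i + 1)) (c1 (i + 2))
      (forced hP h01 h12 hi (by omega) (by omega)) hn (h23.yes (by omega) (by omega))
      (h01.yes (by omega) (by omega)) (h12.yes (by omega) (by omega)).symm
      (forced hP h12 h23 (by omega) (by omega) hj).symm
      (h01.yes (by omega) (by omega)) (h12.yes (by omega) (by omega)).symm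
      (forced hP h12 h23 (by omega) (by omega) hj).symm (h01.ne2 (by omega) (by omega))
      (h01.ix _ _ (by omega) (by omega))
  · exact hC (c0 i) (c3 j) (c1 (i + 1)) (c2 (i + 2)) (c1 (i + 3)) hn (h12.yes (by omega) (by omega))
      (h01.yes (by omega) (by omega)) (forced hP h01 h12 hi (by omega) (by omega))
      (h01.yes (by omega) (by omega)) (forced hP h12 h23 (by omega) (by omega) hj).symm
      (h23.yes (by omega) (by omega)).symm (forced hP h12 h23 (by omega) (by omega) hj).symm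
      (h01.ix _ _ (by omega) (by omega)) (ns (h12.no (by omega) (by omega)))

theorem comp02 (hP : NoP5 G) (hF : NoKe G ∨ NoCp G) (h01 : Half G c0 c1 m) (h12 : Half G c1 c2 m)
    (h23 : Half G c2 c3 m) {i j : ℕ} (hi : 1 ≤ i) (hi' : i + 7 ≤ m) (hj' : j + 7 ≤ m) :
    G.Adj (c0 i) (c2 j) := by
  by_cases hij : i ≤ j
  · exact forced hP h01 h12 hi hij (by omega)
  by_contra hn
  exact hP (c2 (i + 5)) (c0 i) (c2 i) (c3 (i + 4)) (c2 j)
    (forced hP h01 h12 hi (by omega) (by omega)).symm (forced hP h01 h12 hi (by omega) (by omega))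
    (h23.yes (by omega) (by omega)) (h23.yes (by omega) (by omega)).symm
    (h12.ix _ _ (by omega) (by omega)) (h23.no (by omega) (by omega))
    (h12.ix _ _ (by omega) (by omega)) (no03 hP hF h01 h12 h23 hi (by omega) (by omega)) hn
    (h12.ix _ _ (by omega) (by omega))

theorem comp13 (hP : NoP5 G) (hF : NoKe G ∨ NoCp G) (h01 : Half G c0 c1 m) (h12 : Half G c1 c2 m)
    (h23 : Half G c2 c3 m) {i j : ℕ} (hi : 6 ≤ i) (hj : 6 ≤ j) (hi' : i + 2 ≤ m) (hj' : j + 2 ≤ m) :
    G.Adj (c1 i) (c3 j) := by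
  by_cases hij : i ≤ j
  · exact forced hP h12 h23 (by omega) hij (by omega)
  by_contra hn
  exact hP (c1 i) (c0 (j - 4)) (c1 j) (c3 j) (c1 1)
    (h01.yes (by omega) (by omega)).symm (h01.yes (by omega) (by omega))
    (forced hP h12 h23 (by omega) (by omega) (by omega))
    (forced hP h12 h23 (by omega) (by omega) (by omega)).symm
    (h01.ix _ _ (by omega) (by omega)) hn (h01.ix _ _ (by omega) (by omega))
    (no03 hP hF h01 h12 h23 (by omega) (by omega) (by omega)) (h01.no (by omega) (by omega))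
    (h01.ix _ _ (by omega) (by omega))

theorem yes30 (hP : NoP5 G) (hF : NoKe G ∨ NoCp G) (h01 : Half G c0 c1 m) (h12 : Half G c1 c2 m)
    (h23 : Half G c2 c3 m) {i j : ℕ} (hj : 6 ≤ j) (hij : j + 3 ≤ i) (hi' : i + 7 ≤ m) :
    G.Adj (c3 j) (c0 i) := by
  by_contra hn
  exact hP (c0 i) (c2 (j + 1)) (c1 (j + 1)) (c3 j) (c1 (j + 2))
    (comp02 hP hF h01 h12 h23 (by omega) (by omega) (by omega)) (h12.yes le_rfl (by omega)).symm
    (comp13 hP hF h01 h12 h23 (by omega) (by omega) (by omega) (by omega))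
    (comp13 hP hF h01 h12 h23 (by omega) (by omega) (by omega) (by omega)).symm
    (h01.no (by omega) (by omega)) (ns hn) (h01.no (by omega) (by omega))
    (h23.no (by omega) (by omega)) (ns (h12.no (by omega) (by omega)))
    (h01.ix _ _ (by omega) (by omega))

theorem build_circ (hP : NoP5 G) (hF : NoKe G ∨ NoCp G) (h01 : Half G c0 c1 500)
    (h12 : Half G c1 c2 500) (h23 : Half G c2 c3 500) :
    Circ G (fun s => c0 (4 * s + 248).toNat) (fun s => c1 (4 * s + 248).toNat)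
      (fun s => c2 (4 * s + 248).toNat) (fun s => c3 (4 * s + 248).toNat) 60 :=
  ⟨fun s t _ _ _ _ => h01.iu _ _ (by omega) (by omega),
   fun s t _ _ _ _ => h01.ix _ _ (by omega) (by omega),
   fun s t _ _ _ _ => h12.ix _ _ (by omega) (by omega),
   fun s t _ _ _ _ => h23.ix _ _ (by omega) (by omega),
   fun s t _ _ _ => h01.yes (by omega) (by omega),
   fun s t _ _ _ => h12.yes (by omega) (by omega),
   fun s t _ _ _ => h23.yes (by omega) (by omega),
   fun s t _ _ _ => yes30 hP hF h01 h12 h23 (by omega) (by omega) (by omega),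
   fun s t _ _ _ => h01.no (by omega) (by omega),
   fun s t _ _ _ => h12.no (by omega) (by omega),
   fun s t _ _ _ => h23.no (by omega) (by omega),
   fun s t _ _ _ => ns (no03 hP hF h01 h12 h23 (by omega) (by omega) (by omega)),
   fun s t _ _ _ _ => comp02 hP hF h01 h12 h23 (by omega) (by omega) (by omega),
   fun s t _ _ _ _ => comp13 hP hF h01 h12 h23 (by omega) (by omega) (by omega) (by omega)⟩

end build

/-- A large critical `P₅`-free graph contains four long sequences linked by half graphs. -/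
theorem four_classes (K m : ℕ) : ∃ N : ℕ, ∀ (V : Type) [Fintype V] (G : SimpleGraph V),
    ¬ G.Colorable K → G.Colorable (K + 1) → (∀ v, (G.induce {v}ᶜ).Colorable K) → NoP5 G →
    N ≤ Fintype.card V → ∃ c0 c1 c2 c3 : ℕ → V, Half G c0 c1 m ∧ Half G c1 c2 m ∧ Half G c2 c3 m := by
  obtain ⟨M1, hM1⟩ := extend K m
  obtain ⟨M2, hM2⟩ := extend K M1
  refine ⟨2 ^ ((K + 2) + thr 1 (K + 1) K (2 ^ ((K + 1 + 1) + (M2 + 1)))), ?_⟩
  intro V _ G hnot hcol hcrit hP hcard
  obtain ⟨I, hI, u, hu⟩ := big_chain G hP K hnot hcol hcrit 1 (M2 + 1) le_rfl hcard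
  obtain ⟨x, hx⟩ := half_of_chain G I hI u M2 hu
  obtain ⟨σ, y, w, -, -, h1, h2⟩ := hM2 V G hnot hcol hcrit hP u x hx
  obtain ⟨τ, y', w', h3, h4, h5, h6⟩ := hM1 V G hnot hcol hcrit hP y w h2
  exact ⟨_, _, _, _, h1.comp τ h3 h4, h5, h6⟩

end Pool.Agent.H435Z.P5
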