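import Pool.Agent.H435Z.P5.Final
import Pool.Agent.H435Z.P5.Table
import Pool.Agent.H435Z.P5.Cliques

set_option autoImplicit false

namespace Pool.Agent.H435Z.P5

open Classical
open Pool.Agent.H265R2.P5

theorem ind_of {W V : Type} (H : SimpleGraph W) (G : SimpleGraph V) (g : W → V)
    (h : ∀ i j, i ≠ j → g i ≠ g j ∧ (G.Adj (g i) (g j) ↔ H.Adj i j)) : H.IsIndContained G := by
  refine ⟨⟨⟨g, fun i j hij => ?_⟩, ?_⟩⟩
  · by_contra hne
    exact (h i j hne).1 hij
  · intro i j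
    by_cases hij : i = j
    · subst hij
      exact ⟨fun h => absurd rfl h.ne, fun h => absurd rfl h.ne⟩
    · exact (h i j hij).2

theorem exists_mat (H : SimpleGraph (Fin 5)) : ∃ (M : Fin 5 → Fin 5 → Bool) (e : ℕ),
    Good M e ∧ ∀ i j, H.Adj i j ↔ M i j = true := by
  refine ⟨_, _, table (decide (H.Adj 0 1)) (decide (H.Adj 0 2)) (decide (H.Adj 0 3))
    (decide (H.Adj 0 4)) (decide (H.Adj 1 2)) (decide (H.Adj 1 3)) (decide (H.Adj 1 4))
    (decide (H.Adj 2 3)) (decide (H.Adj 2 4)) (decide (H.Adj 3 4)), ?_⟩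
  intro i j
  fin_cases i <;> fin_cases j <;> simp [mat] <;> exact H.adj_comm _ _

variable {V : Type}

theorem noP5_of_free (G : SimpleGraph V)
    (h : ¬ (SimpleGraph.pathGraph 5).IsIndContained G) : NoP5 G := by
  intro a b c d e hab hbc hcd hde hac had hae hbd hbe hce
  apply h
  apply embed5 G _ a b c d e hab.ne (fun h => had (h ▸ hcd)) (fun h => hae (h ▸ hde))
    (fun h => had (h ▸ hde.symm)) hbc.ne (fun h => hbe (h ▸ hde))
    (fun h => hae (h ▸ hab)) hcd.ne (fun h => hbe (h ▸ hbc)) hde.ne <;>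
  simp [SimpleGraph.pathGraph_adj, hab, hbc, hcd, hde, hac, had, hae, hbd, hbe, hce]

/-- The graph on five vertices with a given symmetric Boolean matrix. -/
def ofB (M : Fin 5 → Fin 5 → Bool) : SimpleGraph (Fin 5) :=
  SimpleGraph.fromRel (fun i j => M i j = true)

theorem ke_adj : ∀ i j, (ofB keB).Adj i j ↔ keB i j = true := by
  intro i j
  simp only [ofB, SimpleGraph.fromRel_adj]
  revert i j
  decide

theorem cp_adj : ∀ i j, (ofB cpB).Adj i j ↔ cpB i j = true := by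
  intro i j
  simp only [ofB, SimpleGraph.fromRel_adj]
  revert i j
  decide

theorem noKe_of_free (G : SimpleGraph V) (h : ¬ (ofB keB).IsIndContained G) : NoKe G := by
  intro a b c d e h1 h2 h3 h4 h5 h6 h7 h8 h9 h10 h11
  apply h
  apply embed5 G _ a b c d e h1.ne h2.ne h4.ne h7.ne h3.ne h5.ne h8.ne h6.ne h9.ne h10 <;>
  rw [ke_adj] <;> simp [keB, mat, h1, h2, h3, h4, h5, h6, h7, h8, h9, h11]

theorem noCp_of_free (G : SimpleGraph V) (h : ¬ (ofB cpB).IsIndContained G) : NoCp G := by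
  intro a b c d e h1 h2 h3 h4 h5 h6 h7 h8 h9 h10
  apply h
  apply embed5 G _ a b c d e h1.ne h3.ne h4.ne h5.ne h6.ne h7.ne h8.ne h2.ne
    (fun h => h10 (h ▸ h2.symm)) (fun h => h9 (h ▸ h2)) <;>
  rw [cp_adj] <;> simp [cpB, mat, h1, h2, h3, h4, h5, h6, h7, h8, h9, h10]

theorem Half.ne1 {G : SimpleGraph V} {c0 c1 : ℕ → V} {m : ℕ} (h : Half G c0 c1 m) {i j : ℕ}
    (hij : i < j) (hj : j < m) : c0 i ≠ c0 j := by
  intro he
  have h1 := h.yes (le_refl i) (by omega)
  rw [he] at h1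
  exact h.no hij hj h1

theorem Half.ne12 {G : SimpleGraph V} {c0 c1 : ℕ → V} {m : ℕ} (h : Half G c0 c1 m) {i j : ℕ}
    (hi : i < m) (hj : j < m) : c0 i ≠ c1 j := by
  intro he
  have h1 := h.yes (Nat.zero_le j) hj
  rw [← he] at h1
  exact h.iu _ _ (by omega) hi h1

theorem Half.iff {G : SimpleGraph V} {c0 c1 : ℕ → V} {m : ℕ} (h : Half G c0 c1 m) {i j : ℕ}
    (hi : i < m) (hj : j < m) : G.Adj (c0 i) (c1 j) ↔ i ≤ j := h.adj i j hi hj

/-- The vertex with a given code. -/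
def vtx (c0 c1 c2 : ℕ → V) (v : ℕ) : V :=
  if v / 16 = 0 then c0 (v % 16) else if v / 16 = 1 then c1 (v % 16) else c2 (v % 16)

theorem vtx_lt {G : SimpleGraph V} {c0 c1 c2 : ℕ → V} (hP : NoP5 G) (h01 : Half G c0 c1 500)
    (h12 : Half G c1 c2 500) (v w : ℕ) (hv : validF v) (hw : validF w) (hvw : v < w) :
    vtx c0 c1 c2 v ≠ vtx c0 c1 c2 w ∧
      (G.Adj (vtx c0 c1 c2 v) (vtx c0 c1 c2 w) ↔ adjF v w = true) := by
  unfold validF at hv hw
  unfold vtx adjF
  rcases hv with hv | hv | hv <;> rcases hw with hw | hw | hw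
  · rw [if_pos (by omega), if_pos (by omega), if_pos (by omega)]
    exact ⟨h01.ne1 (by omega) (by omega), by simpa using h01.iu _ _ (by omega) (by omega)⟩
  · rw [if_pos (by omega), if_neg (by omega), if_pos (by omega), if_neg (by omega), if_pos (by omega)]
    exact ⟨h01.ne12 (by omega) (by omega), by simpa using h01.iff (by omega) (by omega)⟩
  · rw [if_pos (by omega), if_neg (by omega), if_neg (by omega), if_neg (by omega), if_pos (by omega)]
    have h1 : G.Adj (c0 (v % 16)) (c2 (w % 16)) :=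
      forced hP h01 h12 (by omega) (by omega) (by omega)
    exact ⟨h1.ne, by simp only [h1, decide_eq_true_eq, true_iff]; omega⟩
  · omega
  · rw [if_neg (by omega), if_pos (by omega), if_neg (by omega), if_pos (by omega), if_pos (by omega)]
    exact ⟨h01.ne2 (by omega) (by omega), by simpa using h01.ix _ _ (by omega) (by omega)⟩
  · rw [if_neg (by omega), if_pos (by omega), if_neg (by omega), if_neg (by omega), if_neg (by omega),
      if_pos (by omega)]
    exact ⟨h12.ne12 (by omega) (by omega), by simpa using h12.iff (by omega) (by omega)⟩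
  · omega
  · omega
  · rw [if_neg (by omega), if_neg (by omega), if_neg (by omega), if_neg (by omega), if_pos (by omega)]
    exact ⟨h12.ne2 (by omega) (by omega), by simpa using h12.ix _ _ (by omega) (by omega)⟩

theorem adjF_comm (v w : ℕ) : adjF v w = adjF w v := by
  unfold adjF
  by_cases h1 : v / 16 = w / 16
  · rw [if_pos h1, if_pos h1.symm]
  · rw [if_neg h1, if_neg (Ne.symm h1)]
    by_cases h2 : v / 16 < w / 16
    · rw [if_pos h2, if_neg (by omega)]
    · rw [if_neg h2, if_pos (by omega)]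

theorem vtx_ne {G : SimpleGraph V} {c0 c1 c2 : ℕ → V} (hP : NoP5 G) (h01 : Half G c0 c1 500)
    (h12 : Half G c1 c2 500) (v w : ℕ) (hv : validF v) (hw : validF w) (hvw : v ≠ w) :
    vtx c0 c1 c2 v ≠ vtx c0 c1 c2 w ∧
      (G.Adj (vtx c0 c1 c2 v) (vtx c0 c1 c2 w) ↔ adjF v w = true) := by
  rcases lt_or_gt_of_ne hvw with h | h
  · exact vtx_lt hP h01 h12 v w hv hw h
  · have := vtx_lt hP h01 h12 w v hw hv h
    rw [G.adj_comm, adjF_comm]
    exact ⟨this.1.symm, this.2⟩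

theorem order_bound (H : SimpleGraph (Fin 5)) (h1 : ¬ twoP2.IsIndContained H)
    (h2 : ¬ trianglePlusP1.IsIndContained H) (h3 : ¬ (SimpleGraph.cycleGraph 5).IsIndContained H)
    (h4 : ¬ (SimpleGraph.completeGraph (Fin 5)).IsIndContained H) (K : ℕ) :
    ∃ N : ℕ, ∀ (V : Type) [Fintype V] (G : SimpleGraph V),
    ¬ G.Colorable K → G.Colorable (K + 1) → (∀ v, (G.induce {v}ᶜ).Colorable K) → NoP5 G →
    ¬ H.IsIndContained G → Fintype.card V < N := by
  obtain ⟨N, hN⟩ := four_classes K 500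
  refine ⟨N, fun V _ G hnot hcol hcrit hP hfree => ?_⟩
  by_contra hcon
  obtain ⟨c0, c1, c2, c3, h01, h12, h23⟩ := hN V G hnot hcol hcrit hP (not_lt.1 hcon)
  obtain ⟨M, e, hG, hM⟩ := exists_mat H
  rcases hG with ⟨-, k1, k2⟩ | ⟨-, k⟩ | ⟨-, k⟩ | ⟨-, k⟩ | ⟨-, k⟩ | ⟨-, k⟩ | ⟨-, k⟩
  · refine hfree (ind_of H G (fun i => vtx c0 c1 c2 (fF e i)) (fun i j hij => ?_))
    have := vtx_ne hP h01 h12 _ _ (k1 i) (k1 j) (k2 i j hij).1
    rw [hM, (k2 i j hij).2]
    exact this
  · have h5 : H.IsIndContained (ofB keB) := ind_of _ _ (gF e) (fun i j hij =>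
      ⟨(k i j hij).1, by rw [ke_adj, hM, (k i j hij).2]⟩)
    have hF : NoKe G ∨ NoCp G := Or.inl (noKe_of_free G (fun h => hfree (h5.trans h)))
    exact circ_false hnot hcrit hP hF (build_circ hP hF h01 h12 h23)
  · have h5 : H.IsIndContained (ofB cpB) := ind_of _ _ (gF e) (fun i j hij =>
      ⟨(k i j hij).1, by rw [cp_adj, hM, (k i j hij).2]⟩)
    have hF : NoKe G ∨ NoCp G := Or.inr (noCp_of_free G (fun h => hfree (h5.trans h)))
    exact circ_false hnot hcrit hP hF (build_circ hP hF h01 h12 h23)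
  · refine h3 (ind_of _ _ (gF e) (fun i j hij => ⟨(k i j hij).1, ?_⟩))
    rw [hM, (k i j hij).2]
    revert i j
    intro i j _
    revert i j
    decide
  · refine h4 (ind_of _ _ id (fun i j hij => ⟨hij, ?_⟩))
    rw [hM]
    simp [k i j hij, hij]
  · refine h1 (ind_of _ _ (hF e) (fun i j hij => ⟨(k i j hij).1, ?_⟩))
    rw [hM, (k i j hij).2]
    fin_cases i <;> fin_cases j <;> simp [p2B, mat, twoP2]
  · refine h2 (ind_of _ _ (hF e) (fun i j hij => ⟨(k i j hij).1, ?_⟩))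
    rw [hM, (k i j hij).2]
    fin_cases i <;> fin_cases j <;> simp [k3B, mat, trianglePlusP1]

theorem order_bound' (H : SimpleGraph (Fin 5)) (h1 : ¬ twoP2.IsIndContained H)
    (h2 : ¬ trianglePlusP1.IsIndContained H) (h3 : ¬ (SimpleGraph.cycleGraph 5).IsIndContained H)
    (h4 : ¬ (SimpleGraph.completeGraph (Fin 5)).IsIndContained H) (k : ℕ) :
    ∃ N : ℕ, ∀ (V : Type) [Fintype V] (G : SimpleGraph V),
    IsVertexCritical G k → ¬ (SimpleGraph.pathGraph 5).IsIndContained G →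
    ¬ H.IsIndContained G → Fintype.card V < N := by
  rcases Nat.eq_zero_or_pos k with hk | hk
  · subst hk
    refine ⟨1, fun V _ G h _ => ?_⟩
    have h0 : G.Colorable 0 := by
      rw [← SimpleGraph.chromaticNumber_le_iff_colorable, h.1]
    obtain ⟨φ⟩ := h0
    have : IsEmpty V := ⟨fun v => (φ v).elim0⟩
    intro _
    rw [Fintype.card_eq_zero]
    exact Nat.one_pos
  · obtain ⟨K, rfl⟩ : ∃ K, k = K + 1 := ⟨k - 1, by omega⟩
    obtain ⟨N, hN⟩ := order_bound H h1 h2 h3 h4 K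
    refine ⟨N, fun V _ G h hP5 hfree => ?_⟩
    apply hN V G
    · intro hc
      rw [← SimpleGraph.chromaticNumber_le_iff_colorable, h.1] at hc
      have : K + 1 ≤ K := by exact_mod_cast hc
      omega
    · rw [← SimpleGraph.chromaticNumber_le_iff_colorable, h.1]
    · intro v
      rw [← SimpleGraph.chromaticNumber_le_iff_colorable]
      have h2 := h.2 v
      have : ((K + 1 : ℕ) : ℕ∞) = (K : ℕ∞) + 1 := by push_cast; rfl
      rw [this] at h2
      exact Order.le_of_lt_add_one h2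
    · exact noP5_of_free G hP5
    · exact hfree

theorem finite_crit (H : SimpleGraph (Fin 5)) (h1 : ¬ twoP2.IsIndContained H)
    (h2 : ¬ trianglePlusP1.IsIndContained H) (h3 : ¬ (SimpleGraph.cycleGraph 5).IsIndContained H)
    (h4 : ¬ (SimpleGraph.completeGraph (Fin 5)).IsIndContained H) (k : ℕ) : (crit k H).Finite := by
  obtain ⟨N, hN⟩ := order_bound' H h1 h2 h3 h4 k
  have hfin : {p : Σ n : ℕ, SimpleGraph (Fin n) | IsVertexCritical p.2 k ∧
      ¬ (SimpleGraph.pathGraph 5).IsIndContained p.2 ∧ ¬ H.IsIndContained p.2}.Finite := by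
    apply Set.Finite.subset (s := ⋃ n ∈ Set.Iio N,
      (fun G : SimpleGraph (Fin n) => (⟨n, G⟩ : Σ n : ℕ, SimpleGraph (Fin n))) '' Set.univ)
    · exact Set.Finite.biUnion (Set.finite_Iio N) (fun n _ => Set.toFinite _)
    · rintro ⟨n, G⟩ ⟨h1, h2, h3⟩
      have := hN (Fin n) G h1 h2 h3
      rw [Fintype.card_fin] at this
      simp only [Set.mem_iUnion]
      exact ⟨n, this, G, Set.mem_univ _, rfl⟩
  refine (hfin.image (Quotient.mk isoSetoid)).subset ?_
  rintro c ⟨p, hp, h1, h2, h3⟩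
  exact ⟨p, ⟨h1, h2, h3⟩, hp⟩

theorem classification (H : SimpleGraph (Fin 5)) :
    (∀ k : ℕ, 1 ≤ k → (crit k H).Finite) ↔
      (¬ twoP2.IsIndContained H ∧ ¬ trianglePlusP1.IsIndContained H ∧
        ¬ (SimpleGraph.cycleGraph 5).IsIndContained H ∧
        ¬ (SimpleGraph.completeGraph (Fin 5)).IsIndContained H) := by
  constructor
  · intro h
    refine ⟨fun h1 => ?_, fun h1 => ?_, fun h1 => ?_, fun h1 => ?_⟩
    · refine crit_infinite 4 le_rfl H (fun p h2 => ?_) (h 5 (by omega))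
      obtain ⟨f⟩ := h1.trans h2
      refine cg_2P2 (p := p + 1) (by omega) (f 0) (f 1) (f 2) (f 3) ?_ ?_ ?_ ?_ ?_ ?_ <;>
        rw [f.map_adj_iff] <;> simp [twoP2]
    · refine crit_infinite 4 le_rfl H (fun p h2 => ?_) (h 5 (by omega))
      obtain ⟨f⟩ := h1.trans h2
      refine cg_K3 (p := p + 1) (by omega) (f 0) (f 1) (f 2) (f 3) ?_ ?_ ?_ ?_ ?_ ?_ <;>
        rw [f.map_adj_iff] <;> simp [trianglePlusP1]
    · refine crit_infinite 5 (by omega) H (fun p h2 => ?_) (h 6 (by omega))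
      obtain ⟨f⟩ := h1.trans h2
      refine cg_C5 (p := p + 1) (by omega) (f 0) (f 1) (f 2) (f 3) (f 4) ?_ ?_ ?_ ?_ ?_ ?_ ?_ ?_ ?_ ?_ <;>
        rw [f.map_adj_iff] <;> decide
    · refine crit_infinite 4 le_rfl H (fun p h2 => ?_) (h 5 (by omega))
      obtain ⟨f⟩ := h1.trans h2
      refine cg_K5 (p := p + 1) (by omega) (f 0) (f 1) (f 2) (f 3) (f 4) ?_ ?_ ?_ ?_ ?_ ?_ ?_ ?_ ?_ ?_ <;>
        rw [f.map_adj_iff] <;> simp
  · rintro ⟨h1, h2, h3, h4⟩ k _
    exact finite_crit H h1 h2 h3 h4 k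

end Pool.Agent.H435Z.P5
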